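import Pool.Agent.H2.L.R_seed8.H7R2.LG.Count4

set_option autoImplicit false

/-! # EV-FAM: letters with equal determinant constants (helper71) -/

namespace Pool.Agent.H2.EV

open Matrix Polynomial Pool.Agent.H7R2.LG

namespace FamAux

theorem iter {K : Type} [Field K] (q : ℕ) (ψ : K →+* K) (hψ : ∀ a, ψ a = a ^ q) (n : ℕ) (b : K) :
    ψ^[n] b = b ^ (q ^ n) := by
  induction n with
  | zero => simp
  | succ k ih => rw [Function.iterate_succ_apply', ih, hψ, ← pow_mul, ← pow_succ]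

theorem gen {K : Type} [Field K] [Finite K] (q : ℕ) (hq : 1 < q) (hK : Nat.card K = q ^ 8)
    (ψ : K →+* K) (hψ : ∀ a, ψ a = a ^ q) :
    ∃ l z : K, l ≠ 0 ∧ ψ (ψ l) = l ∧ ψ l = z * l ∧
      ∀ c : K, c ^ (q + 1) = 1 → ∃ a : ℕ, c = z ^ a := by
  obtain ⟨g, hg⟩ := IsCyclic.exists_monoid_generator (α := Kˣ)
  have ho : orderOf g = q ^ 8 - 1 := by
    rw [orderOf_eq_card_of_forall_mem_powers hg, Nat.card_units, hK]
  obtain ⟨M, hM⟩ : ∃ M, M = 1 + q ^ 2 + q ^ 4 + q ^ 6 := ⟨_, rfl⟩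
  obtain ⟨d, hd⟩ : ∃ d, q = d + 1 := ⟨q - 1, by omega⟩
  have h3 : q ^ 8 - 1 = M * d * (q + 1) := by
    rw [hM]
    have : q ^ 8 = (1 + q ^ 2 + q ^ 4 + q ^ 6) * d * (q + 1) + 1 := by
      rw [hd]; ring
    omega
  have hg1 : g ^ (M * d * (q + 1)) = 1 := by
    rw [← h3, ← ho]; exact pow_orderOf_eq_one g
  refine ⟨((g ^ M : Kˣ) : K), ((g ^ (M * d) : Kˣ) : K), Units.ne_zero _, ?_, ?_, ?_⟩
  · rw [hψ, hψ, ← Units.val_pow_eq_pow_val, ← Units.val_pow_eq_pow_val]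
    congr 1
    have : M * (q * q) = M * d * (q + 1) + M := by rw [hd]; ring
    rw [← pow_mul, ← pow_mul, this, pow_add, hg1, one_mul]
  · rw [hψ, ← Units.val_pow_eq_pow_val, ← Units.val_mul]
    congr 1
    rw [← pow_mul, ← pow_add]
    congr 1
    rw [hd]; ring
  · intro c hc
    have hc0 : c ≠ 0 := by
      rintro rfl
      rw [zero_pow (by omega)] at hc
      exact zero_ne_one hc
    obtain ⟨k, hk⟩ := hg (Units.mk0 c hc0)
    have hk' : g ^ k = Units.mk0 c hc0 := hk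
    have h1 : g ^ (k * (q + 1)) = 1 := by
      rw [pow_mul, hk']
      ext
      simpa using hc
    have h2 : M * d * (q + 1) ∣ k * (q + 1) := by
      rw [← h3, ← ho]; exact orderOf_dvd_of_pow_eq_one h1
    obtain ⟨a, ha⟩ : M * d ∣ k := Nat.dvd_of_mul_dvd_mul_right (by omega) h2
    refine ⟨a, ?_⟩
    rw [← Units.val_pow_eq_pow_val, ← pow_mul, ← ha, hk']
    rfl

end FamAux

open FamAux in
theorem fam {K : Type} [Field K] [Finite K] (q : ℕ) (hq : 1 < q) (ho : Odd q)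
    (hK : Nat.card K = q ^ 8) (ψ : K →+* K) (hψ : ∀ a, ψ a = a ^ q) :
    ∃ (s : ℕ) (e : Fin s → K) (c : K), q ^ 3 + 1 ≤ 4 * s ∧ (∀ i, e i ≠ 0) ∧
      (∀ i, e i + ψ^[2] (e i) + ψ^[4] (e i) + ψ^[6] (e i) = 0) ∧
      (∀ i, e i * ψ (e i) + ψ (e i) * ψ^[6] (e i) + ψ^[6] (e i) * ψ^[7] (e i) =
        ψ^[3] (e i) * ψ^[4] (e i)) ∧
      (∀ i j, i ≠ j → e i * ψ^[2] (e j) ≠ e j * ψ^[2] (e i)) ∧
      (∀ i, (e i * ψ^[2] (e i) * ψ^[4] (e i) * ψ^[6] (e i)) /
        (ψ (e i) * ψ^[3] (e i) * ψ^[5] (e i) * ψ^[7] (e i)) = c) := by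
  classical
  have : Fintype K := Fintype.ofFinite K
  obtain ⟨e, h0, htr, hiso, hind, -⟩ := count4 q hq hK ψ hψ
  obtain ⟨l, z, hl0, hl2, hlz, hz⟩ := gen q hq hK ψ hψ
  have h8 : ∀ a : K, ψ (ψ (ψ (ψ (ψ (ψ (ψ (ψ a))))))) = a := by
    intro a
    have h := iter q ψ hψ 8 a
    rw [← hK, Nat.card_eq_fintype_card, FiniteField.pow_card] at h
    simpa only [Function.iterate_succ_apply, Function.iterate_zero, id_eq] using h
  have hx : ∀ a : K, a ≠ 0 → ψ a ≠ 0 := fun a ha => by simpa using ha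
  simp only [Function.iterate_succ_apply, Function.iterate_zero, id_eq] at htr hiso hind ⊢
  -- the constants are powers of `z`
  have hc : ∀ i, ∃ a : ℕ, (e i * ψ (ψ (e i)) * ψ (ψ (ψ (ψ (e i)))) *
      ψ (ψ (ψ (ψ (ψ (ψ (e i))))))) / (ψ (e i) * ψ (ψ (ψ (e i))) * ψ (ψ (ψ (ψ (ψ (e i))))) *
        ψ (ψ (ψ (ψ (ψ (ψ (ψ (e i)))))))) = z ^ a := by
    intro i
    apply hz
    rw [pow_succ, ← hψ]
    simp only [map_div₀, map_mul, h8]
    have e0 := h0 i
    have e1 := hx _ e0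
    have e2 := hx _ e1
    have e3 := hx _ e2
    have e4 := hx _ e3
    have e5 := hx _ e4
    have e6 := hx _ e5
    have e7 := hx _ e6
    field_simp
  choose a ha using hc
  have hz0 : z ≠ 0 := by
    rintro rfl
    rw [zero_mul] at hlz
    exact hx _ hl0 hlz
  -- scaling
  obtain ⟨L, hL⟩ : ∃ L : Fin (q ^ 3 + 1) → K, L = fun i => l ^ (a i / 4) := ⟨_, rfl⟩
  have hL0 : ∀ i, L i ≠ 0 := fun i => by rw [hL]; exact pow_ne_zero _ hl0
  have hL2 : ∀ i, ψ (ψ (L i)) = L i := fun i => by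
    rw [hL]
    simp only [map_pow, hl2]
  have hLz : ∀ i, ψ (L i) = z ^ (a i / 4) * L i := fun i => by
    rw [hL]
    simp only [map_pow, hlz, mul_pow]
  -- the classes
  obtain ⟨r, hr⟩ : ∃ r : Fin (q ^ 3 + 1) → Fin 4, ∀ i, (r i : ℕ) = a i % 4 :=
    ⟨fun i => ⟨a i % 4, Nat.mod_lt _ (by norm_num)⟩, fun i => rfl⟩
  obtain ⟨y, hy⟩ : ∃ y : Fin 4, q ^ 3 + 1 ≤ 4 * (Finset.univ.filter fun i => r i = y).card := by
    by_contra hcon
    push Not at hcon
    have h1 : Finset.univ.card = ∑ y ∈ (Finset.univ : Finset (Fin 4)),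
        ((Finset.univ : Finset (Fin (q ^ 3 + 1))).filter fun i => r i = y).card :=
      Finset.card_eq_sum_card_fiberwise fun _ _ => Finset.mem_univ _
    rw [Finset.card_univ, Fintype.card_fin, Fin.sum_univ_four] at h1
    have := hcon 0
    have := hcon 1
    have := hcon 2
    have := hcon 3
    omega
  obtain ⟨F, hF⟩ : ∃ F, F = Finset.univ.filter fun i => r i = y := ⟨_, rfl⟩
  rw [← hF] at hy
  let f : Fin F.card → F := F.equivFin.symm
  have hf : Function.Injective f := F.equivFin.symm.injective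
  refine ⟨F.card, fun i => L (f i) * e (f i), z ^ (y : ℕ), hy, fun i => mul_ne_zero (hL0 _) (h0 _),
    fun i => ?_, fun i => ?_, fun i j hij h => ?_, fun i => ?_⟩
  · simp only [map_mul, hL2]
    have := htr (f i)
    linear_combination (L (f i)) * this
  · simp only [map_mul, hL2]
    have := hiso (f i)
    linear_combination (L (f i) * ψ (L (f i))) * this
  · simp only [map_mul, hL2] at h
    have hne : (f i : Fin (q ^ 3 + 1)) ≠ f j := fun h' => hij (hf (Subtype.ext h'))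
    apply hind _ _ hne
    have h1 : L (f i) * L (f j) ≠ 0 := mul_ne_zero (hL0 _) (hL0 _)
    apply mul_left_cancel₀ h1
    linear_combination h
  · simp only [map_mul, hL2]
    have hfi : r (f i) = y := by
      have h9 : ∀ x ∈ F, r x = y := fun x hx => by
        rw [hF, Finset.mem_filter] at hx
        exact hx.2
      exact h9 _ (f i).2
    have h1 := ha (f i)
    have h2 : a (f i) = 4 * (a (f i) / 4) + (y : ℕ) := by
      rw [← hfi, hr]
      omega
    rw [hLz]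
    have hL0' := hL0 (f i)
    have hzp : z ^ (a (f i) / 4) ≠ 0 := pow_ne_zero _ hz0
    have e0 := h0 (f i)
    have e1 := hx _ e0
    have e2 := hx _ e1
    have e3 := hx _ e2
    have e4 := hx _ e3
    have e5 := hx _ e4
    have e6 := hx _ e5
    have e7 := hx _ e6
    rw [div_eq_iff (mul_ne_zero (mul_ne_zero (mul_ne_zero e1 e3) e5) e7), h2] at h1
    rw [div_eq_iff (by
      refine mul_ne_zero (mul_ne_zero (mul_ne_zero ?_ ?_) ?_) ?_ <;>
        exact mul_ne_zero (mul_ne_zero hzp hL0') (by assumption))]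
    obtain ⟨j, hj⟩ : ∃ j, j = a (f i) / 4 := ⟨_, rfl⟩
    rw [← hj] at h1 ⊢
    linear_combination (L (f i)) ^ 4 * h1

end Pool.Agent.H2.EV
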