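import Pool.Agent.H2.L.R_seed8.H7R2.LG.Order
import Pool.Agent.H2.L.R_seed8.H7R2.LG.Datum4

set_option autoImplicit false

/-! EV-H (helper51): an upper bound for the order of the unitary group (Cayley transform). -/

namespace Pool.Agent.H2.EV

open Matrix Polynomial Pool.Agent.H7R2.LG

namespace H

variable {K : Type} [Field K]

/-- the form -/
def J (K : Type) [Field K] : Matrix (Fin (3 + 1)) (Fin (3 + 1)) K := 1 + Pm 3 (-1)

theorem J_det : (J K).det = 2 := by
  unfold J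
  rw [D4a_J, D4a_det]
  ring

theorem A_inj {s : K →+* K} {x : K} {M N : Matrix (Fin (3 + 1)) (Fin (3 + 1)) K}
    (hM : InO s x M) (hN : InO s x N) (h : M 0 = N 0) : M = N := by
  have : ∀ i, M i = N i := by
    intro i
    induction i using Fin.induction with
    | zero => exact h
    | succ i ih =>
      funext j
      rcases Fin.eq_zero_or_eq_succ j with rfl | ⟨j', rfl⟩
      · rw [A2b_succ_zero hM, A2b_succ_zero hN, ih]
      · rw [A2b_succ_succ hM, A2b_succ_succ hN, ih]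
  funext i
  exact this i

theorem A_card [Finite K] (s : K →+* K) (x : K) :
    Nat.card {S : Matrix (Fin (3 + 1)) (Fin (3 + 1)) K // InO s x S} ≤ Nat.card K ^ 4 := by
  have h1 : Nat.card (Fin (3 + 1) → K) = Nat.card K ^ 4 := by
    rw [Nat.card_fun]; simp
  rw [← h1]
  apply Nat.card_le_card_of_injective (fun S => S.1 0)
  intro S T h
  exact Subtype.ext (A_inj S.2 T.2 h)

theorem inO_smul {s : K →+* K} {x : K} {M : Matrix (Fin (3 + 1)) (Fin (3 + 1)) K}
    (hM : InO s x M) {a : K} (ha : s a = a) : InO s x (a • M) := by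
  unfold InO at *
  have : (a • M).map s = a • M.map s := by
    ext i j
    simp [ha]
  rw [this, Matrix.mul_smul, hM, Matrix.smul_mul]

/-- the skew elements -/
def U (ψ : K →+* K) : Set (Matrix (Fin (3 + 1)) (Fin (3 + 1)) K) :=
  {S | InO (ψ.comp ψ) (-1) S ∧ (S.map ψ)ᵀ * J K = -(J K * S)}

theorem U_sub {ψ : K →+* K} {S T : Matrix (Fin (3 + 1)) (Fin (3 + 1)) K} (hS : S ∈ U ψ)
    (hT : T ∈ U ψ) : S - T ∈ U ψ := by
  refine ⟨hS.1.sub hT.1, ?_⟩
  have : (S - T).map ψ = S.map ψ - T.map ψ := by ext i j; simp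
  rw [this, Matrix.transpose_sub, Matrix.sub_mul, hS.2, hT.2, Matrix.mul_sub]
  abel

theorem U_add {ψ : K →+* K} {S T : Matrix (Fin (3 + 1)) (Fin (3 + 1)) K} (hS : S ∈ U ψ)
    (hT : T ∈ U ψ) : S + T ∈ U ψ := by
  refine ⟨hS.1.add hT.1, ?_⟩
  have : (S + T).map ψ = S.map ψ + T.map ψ := by ext i j; simp
  rw [this, Matrix.transpose_add, Matrix.add_mul, hS.2, hT.2, Matrix.mul_add]
  abel

theorem U_scalar {ψ : K →+* K} {a : K} (ha : ψ a = -a) :
    a • (1 : Matrix (Fin (3 + 1)) (Fin (3 + 1)) K) ∈ U ψ := by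
  refine ⟨inO_smul InO.one (by simp [ha]), ?_⟩
  have : (a • (1 : Matrix (Fin (3 + 1)) (Fin (3 + 1)) K)).map ψ =
      (-a) • (1 : Matrix (Fin (3 + 1)) (Fin (3 + 1)) K) := by
    ext i j
    by_cases h : i = j
    · subst h; simp [ha]
    · simp [Matrix.one_apply_ne h]
  rw [this, Matrix.transpose_smul, Matrix.transpose_one, Matrix.smul_mul, Matrix.one_mul,
    Matrix.mul_smul, Matrix.mul_one, neg_smul]

theorem U_card [Finite K] (h2 : (2 : K) ≠ 0) (ψ : K →+* K) (δ : K) (hδ : δ ≠ 0) (hψδ : ψ δ = -δ) :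
    Nat.card (U ψ) * Nat.card (U ψ) ≤ Nat.card K ^ 4 := by
  rw [← Nat.card_prod]
  refine le_trans ?_ (A_card (ψ.comp ψ) (-1))
  have hδδ : (ψ.comp ψ) δ = δ := by simp [hψδ]
  apply Nat.card_le_card_of_injective (fun p : U ψ × U ψ =>
    (⟨p.1.1 + δ • p.2.1, p.1.2.1.add (inO_smul p.2.2.1 hδδ)⟩ :
      {S : Matrix (Fin (3 + 1)) (Fin (3 + 1)) K // InO (ψ.comp ψ) (-1) S}))
  rintro ⟨⟨S, hS⟩, ⟨S', hS'⟩⟩ ⟨⟨T, hT⟩, ⟨T', hT'⟩⟩ h
  simp only [Subtype.mk.injEq] at h
  have hX := U_sub hS hT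
  have hY := U_sub hT' hS'
  have h1 : S - T = δ • (T' - S') := by
    rw [smul_sub, sub_eq_sub_iff_add_eq_add, h]
    abel
  have h3 : ((δ • (T' - S')).map ψ)ᵀ * J K = δ • (J K * (T' - S')) := by
    have e : (δ • (T' - S')).map ψ = (-δ) • (T' - S').map ψ := by
      ext i j; simp [hψδ]
    rw [e, Matrix.transpose_smul, Matrix.smul_mul, hY.2]
    simp
  have h4 := hX.2
  rw [h1, h3, Matrix.mul_smul] at h4
  have h5 : (2 * δ) • (J K * (T' - S')) = 0 := by
    rw [two_mul, add_smul]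
    nth_rewrite 1 [h4]
    abel
  have h6 : J K * (T' - S') = 0 := by
    rcases smul_eq_zero.1 h5 with h | h
    · exact absurd h (mul_ne_zero h2 hδ)
    · exact h
  have h7 : T' - S' = 0 := by
    have hu : IsUnit (J K).det := by rw [J_det]; exact isUnit_iff_ne_zero.2 h2
    have h8 := congrArg (fun Z => (J K)⁻¹ * Z) h6
    simpa [← Matrix.mul_assoc, Matrix.nonsing_inv_mul _ hu] using h8
  have h9 : T' = S' := sub_eq_zero.1 h7
  have h10 : S = T := by
    rw [h7, smul_zero] at h1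
    exact sub_eq_zero.1 h1
  subst h9 h10
  rfl

/-- the skew elements with the determinant condition -/
def Ul (ψ : K →+* K) (l : K) : Set (Matrix (Fin (3 + 1)) (Fin (3 + 1)) K) :=
  {S | S ∈ U ψ ∧ (1 - S).det = l ^ 4 * (1 + S).det}

/-- the polynomial -/
noncomputable def pp (T : Matrix (Fin (3 + 1)) (Fin (3 + 1)) K) (l : K) : K[X] :=
  (T - 1).charpoly - C (l ^ 4) * (1 + T).charpoly

theorem pp_eval (T : Matrix (Fin (3 + 1)) (Fin (3 + 1)) K) (l x : K)
    (h : (1 - (T - x • 1)).det = l ^ 4 * (1 + (T - x • 1)).det) : (pp T l).eval x = 0 := by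
  unfold pp
  rw [eval_sub, eval_mul, eval_C, Matrix.eval_charpoly, Matrix.eval_charpoly]
  have e1 : Matrix.scalar (Fin (3 + 1)) x - (T - 1) = 1 - (T - x • 1) := by
    rw [Matrix.scalar_apply, ← Matrix.smul_one_eq_diagonal]
    abel
  have e2 : Matrix.scalar (Fin (3 + 1)) x - (1 + T) = -(1 + (T - x • 1)) := by
    rw [Matrix.scalar_apply, ← Matrix.smul_one_eq_diagonal]
    abel
  rw [e1, e2, h, Matrix.det_neg]
  simp only [Fintype.card_fin]
  ring

theorem pp_ne (h2 : (2 : K) ≠ 0) (T : Matrix (Fin (3 + 1)) (Fin (3 + 1)) K) (l : K) :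
    pp T l ≠ 0 := by
  intro h
  have c4 : ∀ A : Matrix (Fin (3 + 1)) (Fin (3 + 1)) K, A.charpoly.coeff 4 = 1 := by
    intro A
    have h1 := A.charpoly_monic
    have h3 : A.charpoly.natDegree = 4 := by
      rw [Matrix.charpoly_natDegree_eq_dim]; simp
    have h4 := h1.coeff_natDegree
    rwa [h3] at h4
  have c3 : ∀ A : Matrix (Fin (3 + 1)) (Fin (3 + 1)) K, A.charpoly.coeff 3 = - A.trace := by
    intro A
    rw [Matrix.trace_eq_neg_charpoly_coeff]
    simp
  have h4 := congrArg (fun p : K[X] => p.coeff 4) h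
  simp only [pp, coeff_sub, coeff_C_mul, c4, coeff_zero] at h4
  have h5 : l ^ 4 = 1 := by linear_combination (-1) * h4
  have h3 := congrArg (fun p : K[X] => p.coeff 3) h
  simp only [pp, coeff_sub, coeff_C_mul, c3, coeff_zero, h5, one_mul, Matrix.trace_sub,
    Matrix.trace_add, Matrix.trace_one, Fintype.card_fin] at h3
  have h6 : (2 : K) ^ 3 = 0 := by
    push_cast at h3
    linear_combination h3
  exact pow_ne_zero 3 h2 h6

theorem pp_deg (T : Matrix (Fin (3 + 1)) (Fin (3 + 1)) K) (l : K) : (pp T l).natDegree ≤ 4 := by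
  unfold pp
  refine (natDegree_sub_le _ _).trans (max_le ?_ ?_)
  · rw [Matrix.charpoly_natDegree_eq_dim]; simp
  · refine (natDegree_C_mul_le _ _).trans ?_
    rw [Matrix.charpoly_natDegree_eq_dim]; simp

theorem Ul_card [Finite K] (h2 : (2 : K) ≠ 0) (ψ : K →+* K) (δ l : K) (hδ : δ ≠ 0)
    (hψδ : ψ δ = -δ) :
    Nat.card (Ul ψ l) * Nat.card {s : K // ψ s = s} ≤ 4 * Nat.card (U ψ) := by
  classical
  have : Fintype K := Fintype.ofFinite K
  have : Fintype (U ψ) := Fintype.ofFinite _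
  have : Fintype (Ul ψ l) := Fintype.ofFinite _
  have : Fintype {s : K // ψ s = s} := Fintype.ofFinite _
  rw [← Nat.card_prod, Nat.card_eq_fintype_card, Nat.card_eq_fintype_card]
  have hmem : ∀ p : Ul ψ l × {s : K // ψ s = s},
      p.1.1 + (p.2.1 * δ) • (1 : Matrix (Fin (3 + 1)) (Fin (3 + 1)) K) ∈ U ψ := by
    intro p
    refine U_add p.1.2.1 (U_scalar ?_)
    rw [map_mul, p.2.2, hψδ]; ring
  have h1 := Finset.card_le_mul_card_image_of_maps_to (s := (Finset.univ : Finset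
    (Ul ψ l × {s : K // ψ s = s}))) (t := (Finset.univ : Finset (U ψ)))
    (f := fun p => ⟨_, hmem p⟩) (fun _ _ => Finset.mem_univ _) 4 ?_
  · rwa [Finset.card_univ, Finset.card_univ] at h1
  · rintro ⟨T, hT⟩ -
    -- injection into the roots
    have h3 : (Finset.univ.filter fun p : Ul ψ l × {s : K // ψ s = s} =>
        (⟨_, hmem p⟩ : U ψ) = ⟨T, hT⟩).card ≤ (pp T l).roots.toFinset.card := by
      apply Finset.card_le_card_of_injOn (fun p => p.2.1 * δ)
      · intro p hp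
        simp only [Finset.coe_filter, Finset.mem_univ, true_and, Set.mem_ofPred_eq,
          Subtype.mk.injEq] at hp
        simp only [Multiset.mem_toFinset, SetLike.mem_coe, mem_roots (pp_ne h2 T l), IsRoot.def]
        apply pp_eval
        have e : T - (p.2.1 * δ) • 1 = p.1.1 := by rw [← hp]; abel
        rw [e]
        exact p.1.2.2
      · intro p hp p' hp' h
        simp only [Finset.coe_filter, Finset.mem_univ, true_and, Set.mem_ofPred_eq,
          Subtype.mk.injEq] at hp hp'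
        have h4 : p.2.1 = p'.2.1 := mul_right_cancel₀ hδ h
        have h5 : p.1.1 = p'.1.1 := by
          have : p.1.1 = T - (p.2.1 * δ) • 1 := by rw [← hp]; abel
          rw [this, h4, ← hp']; abel
        exact Prod.ext (Subtype.ext h5) (Subtype.ext h4)
    refine h3.trans ((Multiset.toFinset_card_le _).trans ((card_roots' _).trans (pp_deg T l)))

/-- the group -/
def HH (ψ : K →+* K) : Set (Matrix (Fin (3 + 1)) (Fin (3 + 1)) K) :=
  {M | InO (ψ.comp ψ) (-1) M ∧ (M.map ψ)ᵀ * (1 + Pm 3 (-1)) * M = 1 + Pm 3 (-1) ∧ M.det = 1}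

/-- Cayley transform -/
theorem cayley [Finite K] (h2 : (2 : K) ≠ 0) (ψ : K →+* K) (l : K) (hl : l * ψ l = 1) :
    Nat.card {M : Matrix (Fin (3 + 1)) (Fin (3 + 1)) K // M ∈ HH ψ ∧ (1 + l • M).det ≠ 0} ≤
      Nat.card (Ul ψ l) := by
  have hl0 : l ≠ 0 := by rintro rfl; simp at hl
  have hll : (ψ.comp ψ) l = l := by
    have h1 : ψ l * ψ (ψ l) = 1 := by rw [← map_mul, hl, map_one]
    have h3 : ψ l ≠ 0 := by
      intro h; rw [h, zero_mul] at h1; exact zero_ne_one h1
    have h4 : ψ l * ψ (ψ l) = ψ l * l := by rw [h1, mul_comm, hl]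
    exact mul_left_cancel₀ h3 h4
  have key : ∀ M : Matrix (Fin (3 + 1)) (Fin (3 + 1)) K, M ∈ HH ψ → (1 + l • M).det ≠ 0 →
      (1 - l • M) * (1 + l • M)⁻¹ ∈ Ul ψ l ∧
      1 + (1 - l • M) * (1 + l • M)⁻¹ = (2 : K) • (1 + l • M)⁻¹ := by
    intro M hM hdet
    obtain ⟨hM1, hM2, hM3⟩ := hM
    have hu : IsUnit (1 + l • M).det := isUnit_iff_ne_zero.2 hdet
    set N := l • M with hN
    set B := (1 + N)⁻¹ with hB
    have hB1 : (1 + N) * B = 1 := Matrix.mul_nonsing_inv _ hu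
    have hB2 : B * (1 + N) = 1 := Matrix.nonsing_inv_mul _ hu
    have hNI : InO (ψ.comp ψ) (-1) N := inO_smul hM1 hll
    have hBI : InO (ψ.comp ψ) (-1) B := (InO.one.add hNI).inv hB1 hB2
    have hsum : 1 + (1 - N) * B = (2 : K) • B := by
      have e : (1 : Matrix (Fin (3 + 1)) (Fin (3 + 1)) K) + (1 - N) * B =
        (1 + N) * B + (1 - N) * B := by rw [hB1]
      rw [e, ← Matrix.add_mul]
      have e2 : (1 + N + (1 - N)) = (2 : K) • (1 : Matrix (Fin (3 + 1)) (Fin (3 + 1)) K) := by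
        rw [two_smul]; abel
      rw [e2, Matrix.smul_mul, Matrix.one_mul]
    have hdif : 1 - (1 - N) * B = (2 : K) • (N * B) := by
      have e : (1 : Matrix (Fin (3 + 1)) (Fin (3 + 1)) K) - (1 - N) * B =
        (1 + N) * B - (1 - N) * B := by rw [hB1]
      rw [e, ← Matrix.sub_mul]
      have e2 : (1 + N - (1 - N)) = (2 : K) • N := by
        rw [two_smul]; abel
      rw [e2, Matrix.smul_mul]
    refine ⟨⟨⟨(InO.one.sub hNI).mul hBI, ?_⟩, ?_⟩, hsum⟩
    · -- the skew condition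
      set N' := (N.map ψ)ᵀ with hN'
      set B' := (B.map ψ)ᵀ with hB'
      have h1 : (1 + N') * B' = 1 := by
        have e := congrArg (fun Z : Matrix (Fin (3 + 1)) (Fin (3 + 1)) K => (Z.map ψ)ᵀ) hB2
        simp only [Matrix.map_mul, Matrix.transpose_mul] at e
        rw [Matrix.map_add ψ (map_add ψ), Matrix.map_one ψ (map_zero ψ) (map_one ψ),
          Matrix.transpose_add, Matrix.transpose_one] at e
        exact e
      have h1' : B' * (1 + N') = 1 := by
        have e := congrArg (fun Z : Matrix (Fin (3 + 1)) (Fin (3 + 1)) K => (Z.map ψ)ᵀ) hB1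
        simp only [Matrix.map_mul, Matrix.transpose_mul] at e
        rw [Matrix.map_add ψ (map_add ψ), Matrix.map_one ψ (map_zero ψ) (map_one ψ),
          Matrix.transpose_add, Matrix.transpose_one] at e
        exact e
      have h3 : (((1 - N) * B).map ψ)ᵀ = B' * (1 - N') := by
        rw [Matrix.map_mul, Matrix.transpose_mul, hB', hN']
        congr 1
        ext i j
        simp only [Matrix.transpose_apply, Matrix.map_apply, Matrix.sub_apply, map_sub]
        congr 1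
        by_cases h : i = j
        · subst h; simp
        · rw [Matrix.one_apply_ne h, Matrix.one_apply_ne (Ne.symm h), map_zero]
      have h4 : N' * J K * N = J K := by
        have e : N' = ψ l • (M.map ψ)ᵀ := by
          rw [hN', hN]
          ext i j
          simp
        rw [e, hN, Matrix.smul_mul, Matrix.smul_mul, Matrix.mul_smul, smul_smul, mul_comm (ψ l),
          hl, one_smul]
        exact hM2
      rw [h3]
      have h5 : (1 + N') * (B' * (1 - N') * J K) * (1 + N) =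
          (1 + N') * (-(J K * ((1 - N) * B))) * (1 + N) := by
        have e1 : (1 + N') * (B' * (1 - N') * J K) * (1 + N) =
            ((1 + N') * B') * ((1 - N') * J K * (1 + N)) := by
          simp only [Matrix.mul_assoc]
        have e2 : (1 + N') * (-(J K * ((1 - N) * B))) * (1 + N) =
            -((1 + N') * J K * (1 - N) * (B * (1 + N))) := by
          simp only [Matrix.mul_assoc, Matrix.neg_mul, Matrix.mul_neg]
        rw [e1, e2, h1, hB2, Matrix.one_mul, Matrix.mul_one]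
        have e3 : (1 - N') * J K * (1 + N) = J K * N - N' * J K + J K - N' * J K * N := by
          noncomm_ring
        have e4 : (1 + N') * J K * (1 - N) = J K - J K * N + N' * J K - N' * J K * N := by
          noncomm_ring
        rw [e3, e4, h4]
        abel
      have h6 := congrArg (fun Z => B' * Z * B) h5
      have e5 : ∀ Z : Matrix (Fin (3 + 1)) (Fin (3 + 1)) K,
          B' * ((1 + N') * Z * (1 + N)) * B = Z := by
        intro Z
        calc B' * ((1 + N') * Z * (1 + N)) * B = (B' * (1 + N')) * Z * ((1 + N) * B) := by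
              simp only [Matrix.mul_assoc]
          _ = Z := by rw [h1', hB1, Matrix.one_mul, Matrix.mul_one]
      rwa [e5, e5] at h6
    · rw [hsum, hdif, Matrix.det_smul, Matrix.det_smul, Matrix.det_mul, hN, Matrix.det_smul, hM3]
      simp only [Fintype.card_fin]
      ring
  apply Nat.card_le_card_of_injective (fun M : {M : Matrix (Fin (3 + 1)) (Fin (3 + 1)) K //
    M ∈ HH ψ ∧ (1 + l • M).det ≠ 0} => (⟨_, (key M.1 M.2.1 M.2.2).1⟩ : Ul ψ l))
  rintro ⟨M, hM, hMd⟩ ⟨M', hM', hMd'⟩ h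
  simp only [Subtype.mk.injEq] at h
  have h1 := (key M hM hMd).2
  have h3 := (key M' hM' hMd').2
  rw [h, h3] at h1
  have h4 : (1 + l • M')⁻¹ = (1 + l • M)⁻¹ := smul_right_injective _ h2 h1
  have h5 : 1 + l • M' = 1 + l • M := by
    rw [← Matrix.nonsing_inv_nonsing_inv (1 + l • M') (isUnit_iff_ne_zero.2 hMd'), h4,
      Matrix.nonsing_inv_nonsing_inv (1 + l • M) (isUnit_iff_ne_zero.2 hMd)]
  have h6 : l • M' = l • M := add_left_cancel h5
  have h7 : M' = M := smul_right_injective _ hl0 h6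
  subst h7
  rfl

section count

variable [Finite K] {q : ℕ} (hK : Nat.card K = q ^ 8)

include hK in
theorem ker_card (n : ℕ) (hn : n ∣ q ^ 8 - 1) :
    Nat.card (powMonoidHom n : Kˣ →* Kˣ).ker = n := by
  rw [IsCyclic.card_powMonoidHom_ker, Nat.card_units, hK]
  exact Nat.gcd_eq_right hn

omit [Finite K] in
theorem sq_eq_one_iff_of_ne' {a : K} (h : a ^ 2 = 1) : a = 1 ∨ a = -1 := by
  have h1 : (a - 1) * (a + 1) = 0 := by linear_combination h
  rcases mul_eq_zero.1 h1 with h2 | h2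
  · left; linear_combination h2
  · right; linear_combination h2

theorem dvd1 (q : ℕ) : q ^ 2 - 1 ∣ q ^ 8 - 1 := by
  have : q ^ 8 = (q ^ 2) ^ 4 := by rw [← pow_mul]
  rw [this]
  have h := Nat.sub_dvd_pow_sub_pow (q ^ 2) 1 4
  rwa [one_pow] at h

include hK in
theorem f_card (hq : 4 ≤ q) (ψ : K →+* K) (hψ : ∀ a, ψ a = a ^ q) :
    q ≤ Nat.card {s : K // ψ s = s} := by
  have h1 : q - 1 ∣ q ^ 8 - 1 := by
    have h := Nat.sub_dvd_pow_sub_pow q 1 8
    rwa [one_pow] at h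
  have h2 := ker_card hK (q - 1) h1
  have h3 : Nat.card (Option (powMonoidHom (q - 1) : Kˣ →* Kˣ).ker) = q := by
    rw [Finite.card_option, h2]; omega
  rw [← h3]
  have h4 : ∀ u : (powMonoidHom (q - 1) : Kˣ →* Kˣ).ker, ψ ((u : Kˣ) : K) = ((u : Kˣ) : K) := by
    intro u
    have h5 : (u : Kˣ) ^ (q - 1) = 1 := u.2
    have h6 : (((u : Kˣ) ^ (q - 1) : Kˣ) : K) = 1 := by rw [h5]; rfl
    rw [hψ]
    rw [Units.val_pow_eq_pow_val] at h6
    have h7 : ((u : Kˣ) : K) ^ q = ((u : Kˣ) : K) ^ (q - 1) * ((u : Kˣ) : K) := by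
      rw [← pow_succ]; congr 1; omega
    rw [h7, h6, one_mul]
  apply Nat.card_le_card_of_injective (fun o : Option (powMonoidHom (q - 1) : Kˣ →* Kˣ).ker =>
    (match o with
      | none => ⟨0, map_zero ψ⟩
      | some u => ⟨((u : Kˣ) : K), h4 u⟩ : {s : K // ψ s = s}))
  intro o o' h
  rcases o with _ | u <;> rcases o' with _ | u'
  · rfl
  · simp only [Subtype.mk.injEq] at h
    exact absurd h.symm (Units.ne_zero _)
  · simp only [Subtype.mk.injEq] at h
    exact absurd h (Units.ne_zero _)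
  · simp only [Subtype.mk.injEq] at h
    exact congrArg some (Subtype.ext (Units.ext h))

include hK in
theorem ex_delta (hq : 4 ≤ q) (ho : Odd q) (ψ : K →+* K) (hψ : ∀ a, ψ a = a ^ q) :
    ∃ δ : K, δ ≠ 0 ∧ ψ δ = -δ := by
  have hd2 : 2 * (q - 1) ∣ q ^ 8 - 1 := by
    refine dvd_trans ?_ (dvd1 q)
    obtain ⟨k, hk⟩ := ho
    refine ⟨k + 1, ?_⟩
    subst hk
    have : (2 * k + 1) ^ 2 = 2 * (2 * k + 1 - 1) * (k + 1) + 1 := by
      have e : 2 * k + 1 - 1 = 2 * k := by omega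
      rw [e]; ring
    omega
  have h1 : q - 1 ∣ q ^ 8 - 1 := (Dvd.intro_left 2 rfl).trans hd2
  have h2 := ker_card hK (q - 1) h1
  have h3 := ker_card hK (2 * (q - 1)) hd2
  obtain ⟨u, hu, hu'⟩ : ∃ u ∈ (powMonoidHom (2 * (q - 1)) : Kˣ →* Kˣ).ker,
      u ∉ (powMonoidHom (q - 1) : Kˣ →* Kˣ).ker := by
    by_contra hcon
    push Not at hcon
    have h4 : Nat.card (powMonoidHom (2 * (q - 1)) : Kˣ →* Kˣ).ker ≤
        Nat.card (powMonoidHom (q - 1) : Kˣ →* Kˣ).ker :=
      Nat.card_le_card_of_injective (fun u => ⟨u.1, hcon u.1 u.2⟩) (by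
        intro a b hab
        simp only [Subtype.mk.injEq] at hab
        exact Subtype.ext hab)
    omega
  have h5 : u ^ (2 * (q - 1)) = 1 := hu
  have h6 : u ^ (q - 1) ≠ 1 := hu'
  have h7 : ((u : K) ^ (q - 1)) ^ 2 = 1 := by
    rw [← pow_mul, mul_comm, ← Units.val_pow_eq_pow_val, h5, Units.val_one]
  have h8 : (u : K) ^ (q - 1) = -1 := by
    rcases sq_eq_one_iff_of_ne' h7 with h | h
    · exfalso
      apply h6
      apply Units.ext
      rw [Units.val_pow_eq_pow_val, h, Units.val_one]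
    · exact h
  refine ⟨u, u.ne_zero, ?_⟩
  have h9 : (u : K) ^ q = (u : K) ^ (q - 1) * (u : K) := by
    rw [← pow_succ]; congr 1; omega
  rw [hψ, h9, h8]; ring

include hK in
theorem ex_five (hq : 4 ≤ q) (ψ : K →+* K) (hψ : ∀ a, ψ a = a ^ q) :
    ∃ l : Fin 5 → K, Function.Injective l ∧ ∀ i, l i * ψ (l i) = 1 := by
  have h1 : q + 1 ∣ q ^ 8 - 1 := by
    refine dvd_trans ⟨q - 1, ?_⟩ (dvd1 q)
    obtain ⟨k, rfl⟩ : ∃ k, q = k + 1 := ⟨q - 1, by omega⟩
    have : (k + 1) ^ 2 = (k + 1 + 1) * (k + 1 - 1) + 1 := by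
      simp only [Nat.add_sub_cancel]; ring
    omega
  have h2 := ker_card hK (q + 1) h1
  have hf : Fintype (powMonoidHom (q + 1) : Kˣ →* Kˣ).ker := Fintype.ofFinite _
  have h3 : Fintype.card (Fin 5) ≤ Fintype.card (powMonoidHom (q + 1) : Kˣ →* Kˣ).ker := by
    rw [← Nat.card_eq_fintype_card (α := (powMonoidHom (q + 1) : Kˣ →* Kˣ).ker), h2]
    simp; omega
  obtain ⟨f⟩ := Function.Embedding.nonempty_of_card_le h3
  refine ⟨fun i => ((f i : Kˣ) : K), ?_, ?_⟩
  · intro i j hij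
    exact f.injective (Subtype.ext (Units.ext hij))
  · intro i
    have h4 : (f i : Kˣ) ^ (q + 1) = 1 := (f i).2
    have h5 : (((f i : Kˣ) ^ (q + 1) : Kˣ) : K) = 1 := by rw [h4]; rfl
    rw [Units.val_pow_eq_pow_val, pow_succ'] at h5
    rw [hψ]
    exact h5

end count

theorem cover (l : Fin 5 → K) (hl : Function.Injective l) (hl0 : ∀ i, l i ≠ 0)
    (M : Matrix (Fin (3 + 1)) (Fin (3 + 1)) K) : ∃ i, (1 + l i • M).det ≠ 0 := by
  by_contra hcon
  push Not at hcon
  have h1 : M.charpoly = 0 := by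
    apply Polynomial.eq_zero_of_natDegree_lt_card_of_eval_eq_zero M.charpoly
      (f := fun i => -(l i)⁻¹)
    · intro i j hij
      simp only [neg_inj, _root_.inv_inj] at hij
      exact hl hij
    · intro i
      rw [Matrix.eval_charpoly]
      have e : Matrix.scalar (Fin (3 + 1)) (-(l i)⁻¹) - M = (-(l i)⁻¹) • (1 + l i • M) := by
        rw [Matrix.scalar_apply, ← Matrix.smul_one_eq_diagonal, smul_add, smul_smul]
        rw [neg_mul, inv_mul_cancel₀ (hl0 i), neg_one_smul, sub_eq_add_neg]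
      rw [e, Matrix.det_smul, hcon i, mul_zero]
    · rw [Matrix.charpoly_natDegree_eq_dim]; simp
  exact M.charpoly_monic.ne_zero h1

end H

open H in
theorem cntH {K : Type} [Field K] [Finite K] (q : ℕ) (hq : 4 ≤ q) (ho : Odd q)
    (hK : Nat.card K = q ^ 8) (ψ : K →+* K) (hψ : ∀ a, ψ a = a ^ q) (h2 : (2 : K) ≠ 0) :
    Nat.card {M : Matrix (Fin (3 + 1)) (Fin (3 + 1)) K // InO (ψ.comp ψ) (-1) M ∧
      (M.map ψ)ᵀ * (1 + Pm 3 (-1)) * M = 1 + Pm 3 (-1) ∧ M.det = 1} ≤ 20 * q ^ 15 := by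
  obtain ⟨δ, hδ, hψδ⟩ := ex_delta hK hq ho ψ hψ
  obtain ⟨l, hl, hl1⟩ := ex_five hK hq ψ hψ
  have hl0 : ∀ i, l i ≠ 0 := by
    intro i h
    have := hl1 i
    rw [h, zero_mul] at this
    exact zero_ne_one this
  have hU : Nat.card (U ψ) ≤ q ^ 16 := by
    have h := U_card h2 ψ δ hδ hψδ
    rw [hK] at h
    have e : (q ^ 8) ^ 4 = q ^ 16 * q ^ 16 := by ring
    rw [e] at h
    exact Nat.mul_self_le_mul_self_iff.1 h
  have hUl : ∀ i, Nat.card (Ul ψ (l i)) ≤ 4 * q ^ 15 := by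
    intro i
    have h := Ul_card h2 ψ δ (l i) hδ hψδ
    have hf := f_card hK hq ψ hψ
    have h3 : Nat.card (Ul ψ (l i)) * q ≤ 4 * q ^ 15 * q := by
      calc Nat.card (Ul ψ (l i)) * q ≤ Nat.card (Ul ψ (l i)) * Nat.card {s : K // ψ s = s} :=
            Nat.mul_le_mul_left _ hf
        _ ≤ 4 * Nat.card (U ψ) := h
        _ ≤ 4 * q ^ 16 := Nat.mul_le_mul_left _ hU
        _ = 4 * q ^ 15 * q := by ring
    exact Nat.le_of_mul_le_mul_right h3 (by omega)
  have hcov : ∀ M : {M : Matrix (Fin (3 + 1)) (Fin (3 + 1)) K // InO (ψ.comp ψ) (-1) M ∧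
      (M.map ψ)ᵀ * (1 + Pm 3 (-1)) * M = 1 + Pm 3 (-1) ∧ M.det = 1},
      ∃ i, (1 + l i • M.1).det ≠ 0 := fun M => cover l hl hl0 M.1
  choose idx hidx using hcov
  have h4 : Nat.card {M : Matrix (Fin (3 + 1)) (Fin (3 + 1)) K // InO (ψ.comp ψ) (-1) M ∧
      (M.map ψ)ᵀ * (1 + Pm 3 (-1)) * M = 1 + Pm 3 (-1) ∧ M.det = 1} ≤
      Nat.card (Σ i : Fin 5, {M : Matrix (Fin (3 + 1)) (Fin (3 + 1)) K //
        M ∈ HH ψ ∧ (1 + l i • M).det ≠ 0}) := by
    apply Nat.card_le_card_of_injective (fun M => ⟨idx M, ⟨M.1, M.2, hidx M⟩⟩)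
    intro M M' h
    simp only [Sigma.mk.injEq] at h
    obtain ⟨h5, h6⟩ := h
    apply Subtype.ext
    have : ∀ (i j : Fin 5) (a : {M : Matrix (Fin (3 + 1)) (Fin (3 + 1)) K //
        M ∈ HH ψ ∧ (1 + l i • M).det ≠ 0}) (b : {M : Matrix (Fin (3 + 1)) (Fin (3 + 1)) K //
        M ∈ HH ψ ∧ (1 + l j • M).det ≠ 0}), i = j → HEq a b → a.1 = b.1 := by
      intro i j a b hij hab
      subst hij
      rw [eq_of_heq hab]
    exact this _ _ _ _ h5 h6
  refine h4.trans ?_
  rw [Nat.card_sigma]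
  calc ∑ i : Fin 5, Nat.card {M : Matrix (Fin (3 + 1)) (Fin (3 + 1)) K //
        M ∈ HH ψ ∧ (1 + l i • M).det ≠ 0} ≤ ∑ i : Fin 5, 4 * q ^ 15 :=
        Finset.sum_le_sum (fun i _ => (cayley h2 ψ (l i) (hl1 i)).trans (hUl i))
    _ = 20 * q ^ 15 := by simp; ring

end Pool.Agent.H2.EV
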