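import Pool.Agent.H2.L.R_seed8.H7R2.LG.T4

set_option autoImplicit false
set_option linter.unusedSimpArgs false

/-! EV-UNI: the matrices `T4` at `X = -1` are unitary up to a fixed matrix. -/

namespace Pool.Agent.H2.EV

open Matrix Polynomial Pool.Agent.H7R2.LG

theorem uni_J {R : Type*} [CommRing R] (x : R) :
    (1 + Pm 3 x : Matrix (Fin 4) (Fin 4) R) =
      !![1, 1, 0, 0; 0, 1, 1, 0; 0, 0, 1, 1; x, 0, 0, 1] := by
  ext i j
  fin_cases i <;> fin_cases j <;> simp [Pm]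

theorem uni_aux {K : Type} [Field K] (ψ : K →+* K) (a0 a1 a2 a3 a4 a5 a6 a7 : K)
    (h0 : ψ a0 = a1) (h1 : ψ a1 = a2) (h2 : ψ a2 = a3) (h3 : ψ a3 = a4) (h4 : ψ a4 = a5)
    (h5 : ψ a5 = a6) (h6 : ψ a6 = a7) (h7 : ψ a7 = a0)
    (n0 : a0 ≠ 0) (n1 : a1 ≠ 0) (n2 : a2 ≠ 0) (n3 : a3 ≠ 0) (n4 : a4 ≠ 0) (n5 : a5 ≠ 0)
    (n6 : a6 ≠ 0) (n7 : a7 ≠ 0)
    (i0 : a0 * a1 + a1 * a6 + a6 * a7 = a3 * a4) :
    (!![a6 / a3, a2 / a5, 0, 0; 0, a0 / a5, a4 / a7, 0; 0, 0, a2 / a7, a6 / a1;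
        -(a0 / a3), 0, 0, a4 / a1].map ψ)ᵀ *
      !![1, 1, 0, 0; 0, 1, 1, 0; 0, 0, 1, 1; -1, 0, 0, 1] *
      !![a6 / a3, a2 / a5, 0, 0; 0, a0 / a5, a4 / a7, 0; 0, 0, a2 / a7, a6 / a1;
        -(a0 / a3), 0, 0, a4 / a1] =
      !![1, 1, 1, -1; 1, 1, 1, 1; -1, 1, 1, 1; -1, -1, 1, 1] := by
  have i1 := congrArg ψ i0
  simp only [map_add, map_mul, h0, h1, h2, h3, h4, h5, h6, h7] at i1
  have i2 := congrArg ψ i1
  simp only [map_add, map_mul, h0, h1, h2, h3, h4, h5, h6, h7] at i2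
  have i3 := congrArg ψ i2
  simp only [map_add, map_mul, h0, h1, h2, h3, h4, h5, h6, h7] at i3
  have i4 := congrArg ψ i3
  simp only [map_add, map_mul, h0, h1, h2, h3, h4, h5, h6, h7] at i4
  have i5 := congrArg ψ i4
  simp only [map_add, map_mul, h0, h1, h2, h3, h4, h5, h6, h7] at i5
  have i6 := congrArg ψ i5
  simp only [map_add, map_mul, h0, h1, h2, h3, h4, h5, h6, h7] at i6
  have i7 := congrArg ψ i6
  simp only [map_add, map_mul, h0, h1, h2, h3, h4, h5, h6, h7] at i7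
  have e1 : (!![a6 / a3, a2 / a5, 0, 0; 0, a0 / a5, a4 / a7, 0; 0, 0, a2 / a7, a6 / a1;
        -(a0 / a3), 0, 0, a4 / a1].map ψ)ᵀ =
      !![a7 / a4, 0, 0, -(a1 / a4);
        a3 / a6, a1 / a6, 0, 0;
        0, a5 / a0, a3 / a0, 0;
        0, 0, a7 / a2, a5 / a2] := by
    ext1 i j
    fin_cases i <;> fin_cases j <;>
      simp [h0, h1, h2, h3, h4, h5, h6, h7]
  rw [e1]
  clear e1
  ext1 i j
  fin_cases i <;> fin_cases j
  all_goals simp [Matrix.mul_apply, Fin.sum_univ_four]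
  all_goals field_simp
  · linear_combination i0
  · linear_combination i1
  · linear_combination i2
  · linear_combination i3
  · linear_combination i4
  · linear_combination i5
  · linear_combination -i7
  · linear_combination i6

theorem uni {K : Type} [Field K] (ψ : K →+* K) (hψ : ∀ a, ψ^[8] a = a) (e : K) (h0 : e ≠ 0)
    (hiso : e * ψ e + ψ e * ψ^[6] e + ψ^[6] e * ψ^[7] e = ψ^[3] e * ψ^[4] e) :
    (((T4 ψ e).map (eval (-1))).map ψ)ᵀ * (1 + Pm 3 (-1 : K)) * (T4 ψ e).map (eval (-1)) =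
      !![1, 1, 1, -1; 1, 1, 1, 1; -1, 1, 1, 1; -1, -1, 1, 1] := by
  have hn : ∀ (k : ℕ), ψ^[k] e ≠ 0 := by
    intro k
    induction k with
    | zero => exact h0
    | succ k ih =>
      rw [Function.iterate_succ_apply']
      exact (map_ne_zero ψ).2 ih
  have hs : ∀ (k : ℕ), ψ (ψ^[k] e) = ψ^[k + 1] e := by
    intro k
    rw [Function.iterate_succ_apply']
  have s7 : ψ (ψ^[7] e) = e := by rw [hs]; exact hψ e
  have hT : (T4 ψ e).map (eval (-1)) =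
      !![ψ^[6] e / ψ^[3] e, ψ^[2] e / ψ^[5] e, 0, 0; 0, e / ψ^[5] e, ψ^[4] e / ψ^[7] e, 0;
        0, 0, ψ^[2] e / ψ^[7] e, ψ^[6] e / ψ e; -(e / ψ^[3] e), 0, 0, ψ^[4] e / ψ e] := by
    unfold T4
    ext1 i j
    fin_cases i <;> fin_cases j <;> simp
  have := uni_aux ψ e (ψ e) (ψ^[2] e) (ψ^[3] e) (ψ^[4] e) (ψ^[5] e) (ψ^[6] e) (ψ^[7] e)
    rfl (hs 1) (hs 2) (hs 3) (hs 4) (hs 5) (hs 6) s7 h0 (hn 1) (hn 2) (hn 3) (hn 4) (hn 5) (hn 6)
    (hn 7) hiso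
  rw [hT, uni_J]
  exact this

end Pool.Agent.H2.EV
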