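import Pool.Agent.H2.L.R_seed8.H7R2.LG.Core

set_option autoImplicit false

/-! The datum of the `U(4)` graphs (the library's `datum4_of` with all its fields), and the congruence levels. -/

namespace Pool.Agent.H2.EV

open Matrix Polynomial Pool.Agent.H7R2.LG

theorem datum4x {K : Type} [Field K] (ψ : K →+* K) (hψ : ∀ a, ψ^[8] a = a) {ι : Type}
    (e : ι → K) (h0 : ∀ i, e i ≠ 0)
    (hiso : ∀ i, e i * ψ (e i) + ψ (e i) * ψ^[6] (e i) + ψ^[6] (e i) * ψ^[7] (e i) =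
      ψ^[3] (e i) * ψ^[4] (e i))
    (hne4 : ∀ L : List (ι × ι), Red L → L ≠ [] →
      (L.map fun p => (T4 ψ (e p.1) * (T4 ψ (e p.2)).adjugate).map (eval 1)).prod ≠ 0) :
    ∃ D : Datum K 3 ι, D.σ = ψ.comp ψ ∧ D.ψ = ψ ∧ D.ε = 1 ∧ (∀ i, D.T i = T4 ψ (e i)) ∧
      ∀ i, D.c i = (e i * ψ^[2] (e i) * ψ^[4] (e i) * ψ^[6] (e i)) /
        (ψ (e i) * ψ^[3] (e i) * ψ^[5] (e i) * ψ^[7] (e i)) := by
  have hn : ∀ i (k : ℕ), ψ^[k] (e i) ≠ 0 := by
    intro i k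
    induction k with
    | zero => exact h0 i
    | succ k ih =>
      rw [Function.iterate_succ_apply']
      exact (map_ne_zero ψ).2 ih
  have hs : ∀ i (k : ℕ), ψ (ψ^[k] (e i)) = ψ^[k + 1] (e i) := by
    intro i k
    rw [Function.iterate_succ_apply']
  have hT : ∀ i, T4 ψ (e i) = D4a_T (e i) (ψ (e i)) (ψ^[2] (e i)) (ψ^[3] (e i)) (ψ^[4] (e i))
      (ψ^[5] (e i)) (ψ^[6] (e i)) (ψ^[7] (e i)) := fun i => rfl
  have s7 : ∀ i, ψ (ψ^[7] (e i)) = e i := by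
    intro i
    rw [hs i 7]
    exact hψ (e i)
  refine ⟨{
    σ := ψ.comp ψ
    hσ := ?_
    ψ := ψ
    T := fun i => T4 ψ (e i)
    hT := ?_
    c := fun i => (e i * ψ^[2] (e i) * ψ^[4] (e i) * ψ^[6] (e i)) /
        (ψ (e i) * ψ^[3] (e i) * ψ^[5] (e i) * ψ^[7] (e i))
    hc := ?_
    ε := 1
    hε := one_mul 1
    hψε := map_one ψ
    hdet := ?_
    J := 1 + Pm 3 X
    hJ := ?_
    Θ := !![1, 1, 1, (algebraMap K[X] (FractionRing K[X]) X)⁻¹; 1, 1, 1, 1;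
      algebraMap K[X] (FractionRing K[X]) X, 1, 1, 1;
      algebraMap K[X] (FractionRing K[X]) X, algebraMap K[X] (FractionRing K[X]) X, 1, 1]
    hΘ := ?_
    hne := ?_ }, rfl, rfl, rfl, fun i => rfl, ?_⟩
  · intro a
    exact hψ a
  · intro i
    rw [hT i]
    exact D4a_inO ψ _ _ _ _ _ _ _ _ rfl (hs i 1) (hs i 2) (hs i 3) (hs i 4) (hs i 5) (hs i 6)
      (s7 i)
  · intro i
    have n0 := hn i 0
    have n1 := hn i 1
    have n2 := hn i 2
    have n3 := hn i 3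
    have n4 := hn i 4
    have n5 := hn i 5
    have n6 := hn i 6
    have n7 := hn i 7
    exact div_ne_zero (mul_ne_zero (mul_ne_zero (mul_ne_zero n0 n2) n4) n6)
      (mul_ne_zero (mul_ne_zero (mul_ne_zero n1 n3) n5) n7)
  · intro i
    have n0 := hn i 0
    have n1 := hn i 1
    have n2 := hn i 2
    have n3 := hn i 3
    have n4 := hn i 4
    have n5 := hn i 5
    have n6 := hn i 6
    have n7 := hn i 7
    rw [hT i]
    exact D4a_detT _ _ _ _ _ _ _ _ n1 n3 n5 n7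
  · rw [D4a_J, D4a_det]
    intro h
    have h2 := congrArg (Polynomial.eval 0) h
    simp at h2
  · intro i
    rw [hT i]
    exact D4a_theta ψ _ _ _ _ _ _ _ _ rfl (hs i 1) (hs i 2) (hs i 3) (hs i 4) (hs i 5) (hs i 6)
      (s7 i) (hn i 0) (hn i 1) (hn i 2) (hn i 3) (hn i 4) (hn i 5) (hn i 6) (hn i 7) (hiso i)
  · intro L hL hne
    exact hne4 L hL hne
  · intro i
    rfl


end Pool.Agent.H2.EV
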