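import Pool.Agent.H2.EV.Pex
import Pool.Agent.H2.EV.Dat

set_option autoImplicit false

/-! Words in the letters `T_P T_Q⁻¹` in the group over the power series and at `X = -1`. -/

namespace Pool.Agent.H2.EV

open Matrix Polynomial Pool.Agent.H7R2.LG

/-- clearing denominators in the group over the power series -/
theorem wkey {K : Type} [Field K] {d : ℕ} {ι : Type} (D : Datum K d ι)
    (g : ι → GL (Fin (d + 1)) (PowerSeries K))
    (hg : ∀ i, (g i : Matrix (Fin (d + 1)) (Fin (d + 1)) (PowerSeries K)) =
      (D.T i).map (AB_cs K)) (L : List (ι × ι)) :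
    AB_cs K ((L.map fun p => (D.T p.2).det).prod) •
          (((L.map fun p => g p.1 * (g p.2)⁻¹).prod : GL (Fin (d + 1)) (PowerSeries K)) :
            Matrix (Fin (d + 1)) (Fin (d + 1)) (PowerSeries K)) =
          (L.map fun p => D.T p.1 * (D.T p.2).adjugate).prod.map (AB_cs K) := by
  induction L with
  | nil =>
    simp only [List.map_nil, List.prod_nil, map_one, Units.val_one, one_smul]
    rw [Matrix.map_one _ (map_zero _) (map_one _)]
  | cons p L ih =>
    simp only [List.map_cons, List.prod_cons, map_mul, Units.val_mul]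
    rw [Matrix.map_mul, ← ih]
    have h1 : AB_cs K (D.T p.2).det •
        (((g p.2)⁻¹ : GL (Fin (d + 1)) (PowerSeries K)) :
          Matrix (Fin (d + 1)) (Fin (d + 1)) (PowerSeries K)) =
        (D.T p.2).adjugate.map (AB_cs K) := by
      have h2 := AB_adj (g p.2)
      rw [hg] at h2
      have h3 : ((D.T p.2).map (AB_cs K)).det = AB_cs K (D.T p.2).det := by
        rw [RingHom.map_det, RingHom.mapMatrix_apply]
      have h4 : ((D.T p.2).map (AB_cs K)).adjugate = (D.T p.2).adjugate.map (AB_cs K) := by
        have := RingHom.map_adjugate (AB_cs K) (D.T p.2)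
        simpa only [RingHom.mapMatrix_apply] using this.symm
      rw [← h4, ← h2, h3]
    rw [Matrix.map_mul, ← h1, hg]
    simp only [Matrix.smul_mul, Matrix.mul_smul, smul_smul]
    rw [mul_comm]

/-- the determinant of `Λ - W̃` in the power series -/
theorem wdet {K : Type} [Field K] {d : ℕ} {ι : Type} (D : Datum K d ι)
    (g : ι → GL (Fin (d + 1)) (PowerSeries K))
    (hg : ∀ i, (g i : Matrix (Fin (d + 1)) (Fin (d + 1)) (PowerSeries K)) =
      (D.T i).map (AB_cs K)) (L : List (ι × ι)) (m : ℕ)
    (N : Matrix (Fin (d + 1)) (Fin (d + 1)) (PowerSeries K))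
    (hN : (((L.map fun p => g p.1 * (g p.2)⁻¹).prod : GL (Fin (d + 1)) (PowerSeries K)) :
            Matrix (Fin (d + 1)) (Fin (d + 1)) (PowerSeries K)) - 1 =
      N * Pm d (PowerSeries.X : PowerSeries K) ^ m) :
    AB_cs K ((L.map fun p => (D.T p.2).det).prod •
        (1 : Matrix (Fin (d + 1)) (Fin (d + 1)) K[X]) -
      (L.map fun p => D.T p.1 * (D.T p.2).adjugate).prod).det =
    (-AB_cs K ((L.map fun p => (D.T p.2).det).prod)) ^ (d + 1) * N.det *
      ((-1) ^ d * (PowerSeries.X : PowerSeries K)) ^ m := by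
  have hkey := wkey D g hg L
  rw [RingHom.map_det, RingHom.mapMatrix_apply]
  have h5 : (((L.map fun p => (D.T p.2).det).prod •
      (1 : Matrix (Fin (d + 1)) (Fin (d + 1)) K[X]) -
      (L.map fun p => D.T p.1 * (D.T p.2).adjugate).prod).map (AB_cs K)) =
      ((-AB_cs K ((L.map fun p => (D.T p.2).det).prod)) • N) *
        (Pm d (PowerSeries.X : PowerSeries K)) ^ m := by
    rw [neg_smul, Matrix.neg_mul, Matrix.smul_mul, ← hN, smul_sub, hkey]
    ext i j
    simp only [Matrix.map_apply, Matrix.sub_apply, Matrix.neg_apply, Matrix.smul_apply,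
      smul_eq_mul, map_sub, map_mul]
    by_cases hij : i = j
    · subst hij; simp
    · simp [Matrix.one_apply_ne hij]
  rw [h5, Matrix.det_mul, Matrix.det_pow, pm_det, Matrix.det_smul, Fintype.card_fin]

/-- the letters at `X = -1` -/
theorem wev {K : Type} [Field K] {d : ℕ} {ι : Type} (D : Datum K d ι) (u : K)
    (g : ι → GL (Fin (d + 1)) K)
    (hg : ∀ i, (g i : Matrix (Fin (d + 1)) (Fin (d + 1)) K) = (D.T i).map (eval u))
    (L : List (ι × ι)) :
    eval u ((L.map fun p => (D.T p.2).det).prod) •
          (((L.map fun p => g p.1 * (g p.2)⁻¹).prod : GL (Fin (d + 1)) K) :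
            Matrix (Fin (d + 1)) (Fin (d + 1)) K) =
          (L.map fun p => D.T p.1 * (D.T p.2).adjugate).prod.map (eval u) := by
  have hmul : ∀ A B : Matrix (Fin (d + 1)) (Fin (d + 1)) K[X],
      (A * B).map (eval u) = A.map (eval u) * B.map (eval u) := by
    intro A B
    exact Matrix.map_mul (f := evalRingHom u)
  induction L with
  | nil =>
    simp only [List.map_nil, List.prod_nil, Units.val_one, eval_one, one_smul]
    rw [Matrix.map_one _ (by simp) (by simp)]
  | cons p L ih =>
    simp only [List.map_cons, List.prod_cons, Units.val_mul, eval_mul]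
    rw [hmul, ← ih]
    have h1 : eval u (D.T p.2).det •
        (((g p.2)⁻¹ : GL (Fin (d + 1)) K) : Matrix (Fin (d + 1)) (Fin (d + 1)) K) =
        (D.T p.2).adjugate.map (eval u) := by
      have h2 := AB_adj (g p.2)
      rw [hg] at h2
      have h3 : ((D.T p.2).map (eval u)).det = eval u (D.T p.2).det := by
        have := (RingHom.map_det (evalRingHom u) (D.T p.2)).symm
        simpa only [RingHom.mapMatrix_apply, coe_evalRingHom] using this
      have h4 : ((D.T p.2).map (eval u)).adjugate = (D.T p.2).adjugate.map (eval u) := by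
        have := RingHom.map_adjugate (evalRingHom u) (D.T p.2)
        simpa only [RingHom.mapMatrix_apply, coe_evalRingHom] using this.symm
      rw [← h4, ← h2, h3]
    rw [hmul, ← h1, hg]
    simp only [Matrix.smul_mul, Matrix.mul_smul, smul_smul]
    rw [mul_comm]

/-- words which are trivial at `X = -1` -/
theorem wdvd {K : Type} [Field K] {d : ℕ} {ι : Type} (D : Datum K d ι)
    (g : ι → GL (Fin (d + 1)) K)
    (hg : ∀ i, (g i : Matrix (Fin (d + 1)) (Fin (d + 1)) K) = (D.T i).map (eval (-1)))
    (L : List (ι × ι)) (h1 : (L.map fun p => g p.1 * (g p.2)⁻¹).prod = 1) :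
    (X + 1 : K[X]) ^ (d + 1) ∣ ((L.map fun p => (D.T p.2).det).prod •
        (1 : Matrix (Fin (d + 1)) (Fin (d + 1)) K[X]) -
      (L.map fun p => D.T p.1 * (D.T p.2).adjugate).prod).det := by
  have h2 := wev D (-1) g hg L
  rw [h1, Units.val_one] at h2
  have h3 : ∀ i j, (X + 1 : K[X]) ∣ ((L.map fun p => (D.T p.2).det).prod •
        (1 : Matrix (Fin (d + 1)) (Fin (d + 1)) K[X]) -
      (L.map fun p => D.T p.1 * (D.T p.2).adjugate).prod) i j := by
    intro i j
    have e : (X + 1 : K[X]) = X - C (-1) := by simp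
    rw [e, dvd_iff_isRoot, IsRoot.def, Matrix.sub_apply, eval_sub]
    have h4 := congrFun (congrFun h2 i) j
    rw [Matrix.map_apply, Matrix.smul_apply] at h4
    rw [← h4, Matrix.smul_apply]
    by_cases hij : i = j
    · subst hij; simp
    · simp [Matrix.one_apply_ne hij]
  choose B hB using h3
  have h5 : ((L.map fun p => (D.T p.2).det).prod •
        (1 : Matrix (Fin (d + 1)) (Fin (d + 1)) K[X]) -
      (L.map fun p => D.T p.1 * (D.T p.2).adjugate).prod) = (X + 1 : K[X]) • Matrix.of B := by
    ext1 i j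
    rw [hB, Matrix.smul_apply, Matrix.of_apply, smul_eq_mul]
  rw [h5, Matrix.det_smul, Fintype.card_fin]
  exact dvd_mul_right _ _

end Pool.Agent.H2.EV
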