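import Pool.Agent.H2.EV.Grp
import Pool.Agent.H2.EV.H
import Pool.Agent.H2.EV.Uni
import Pool.Agent.H2.EV.Wrd

set_option autoImplicit false

/-! The levels: `τ^m`, half a layer more, and the place `X = -1`. -/

namespace Pool.Agent.H2.EV

open Matrix Polynomial Pool.Agent.H7R2.LG

/-- congruence level `m` (`hl = 0`) or `m` and a half layer (`hl = 1`) -/
theorem lvl {K : Type} [Field K] [Finite K] (σ : K →+* K) (hσ : ∀ a, σ^[4] a = a)
    (m hl : ℕ) (hm : 1 ≤ m) (hh : hl ≤ 1) :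
    ∃ (Ω : Type) (_ : Finite Ω) (_ : Nonempty Ω) (act : Ω → Gs 3 σ (⊥ : Subgroup Kˣ) → Ω),
      (∀ x, act x 1 = x) ∧ (∀ x g h, act x (g * h) = act (act x g) h) ∧
      Nat.card Ω ≤ bnd 3 σ ⊥ m *
        (if 4 ∣ m then Nat.card {u : K // σ u = -u} else Nat.card {u : K // σ (σ u) = u}) ^ hl ∧
      ∀ (x : Ω) (M : Gs 3 σ (⊥ : Subgroup Kˣ)), act x M = x →
        ∃ N : Matrix (Fin (3 + 1)) (Fin (3 + 1)) (PowerSeries K),
          ((M : GL (Fin (3 + 1)) (PowerSeries K)) :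
            Matrix (Fin (3 + 1)) (Fin (3 + 1)) (PowerSeries K)) - 1 =
            N * (Pm 3 (PowerSeries.X : PowerSeries K)) ^ m ∧
          (hl = 1 → ∃ z : K, σ z = -z ∧ PowerSeries.constantCoeff N.det = z ^ 2) := by
  interval_cases hl
  · obtain ⟨G, hG, hGf, f, hcard, hf⟩ := grpB 3 σ (⊥ : Subgroup Kˣ) m
    refine ⟨G, hGf, ⟨1⟩, fun x g => x * f g, by simp, by simp [mul_assoc], by simpa using hcard, ?_⟩
    intro x M hM
    have h1 : f M = 1 := mul_eq_left.1 hM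
    obtain ⟨N, hN⟩ := hf M h1
    exact ⟨N, hN, by simp⟩
  · obtain ⟨Ω, a1, a2, act, h1, h2, h3, h4⟩ := grp σ hσ (⊥ : Subgroup Kˣ) m hm
    refine ⟨Ω, a1, a2, act, h1, h2, by simpa using h3, ?_⟩
    intro x M hM
    obtain ⟨N, hN, hz⟩ := h4 x M hM
    exact ⟨N, hN, fun _ => hz⟩

/-- the unitary group at `X = -1` -/
def Hs {K : Type} [Field K] (ψ : K →+* K) (J : Matrix (Fin (3 + 1)) (Fin (3 + 1)) K) :
    Subgroup (GL (Fin (3 + 1)) K) where
  carrier := {M | InO (ψ.comp ψ) (-1) (M : Matrix (Fin (3 + 1)) (Fin (3 + 1)) K) ∧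
    ((M : Matrix (Fin (3 + 1)) (Fin (3 + 1)) K).map ψ)ᵀ * J *
      (M : Matrix (Fin (3 + 1)) (Fin (3 + 1)) K) = J ∧
    (M : Matrix (Fin (3 + 1)) (Fin (3 + 1)) K).det = 1}
  mul_mem' := by
    rintro M N ⟨h1, h2, h3⟩ ⟨h1', h2', h3'⟩
    refine ⟨?_, ?_, ?_⟩
    · rw [Units.val_mul]; exact h1.mul h1'
    · rw [Units.val_mul, Matrix.map_mul, Matrix.transpose_mul]
      calc _ = ((N : Matrix (Fin (3 + 1)) (Fin (3 + 1)) K).map ψ)ᵀ *
            (((M : Matrix (Fin (3 + 1)) (Fin (3 + 1)) K).map ψ)ᵀ * J *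
            (M : Matrix (Fin (3 + 1)) (Fin (3 + 1)) K)) *
            (N : Matrix (Fin (3 + 1)) (Fin (3 + 1)) K) := by simp only [Matrix.mul_assoc]
        _ = J := by rw [h2, h2']
    · rw [Units.val_mul, Matrix.det_mul, h3, h3', mul_one]
  one_mem' := by
    refine ⟨by rw [Units.val_one]; exact InO.one, ?_, by simp⟩
    rw [Units.val_one, Matrix.map_one ψ (map_zero ψ) (map_one ψ)]
    simp
  inv_mem' := by
    rintro M ⟨h1, h2, h3⟩
    have e1 : (M : Matrix (Fin (3 + 1)) (Fin (3 + 1)) K) * ((M⁻¹ : GL (Fin (3 + 1)) K) :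
        Matrix (Fin (3 + 1)) (Fin (3 + 1)) K) = 1 := by
      rw [← Units.val_mul]; simp
    have e2 : ((M⁻¹ : GL (Fin (3 + 1)) K) : Matrix (Fin (3 + 1)) (Fin (3 + 1)) K) *
        (M : Matrix (Fin (3 + 1)) (Fin (3 + 1)) K) = 1 := by
      rw [← Units.val_mul]; simp
    refine ⟨h1.inv e1 e2, ?_, ?_⟩
    · have e3 : (((M⁻¹ : GL (Fin (3 + 1)) K) : Matrix (Fin (3 + 1)) (Fin (3 + 1)) K).map ψ)ᵀ *
          ((M : Matrix (Fin (3 + 1)) (Fin (3 + 1)) K).map ψ)ᵀ = 1 := by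
        rw [← Matrix.transpose_mul, ← Matrix.map_mul, e1, Matrix.map_one ψ (map_zero ψ) (map_one ψ),
          Matrix.transpose_one]
      have e4 : (((M⁻¹ : GL (Fin (3 + 1)) K) : Matrix (Fin (3 + 1)) (Fin (3 + 1)) K).map ψ)ᵀ * J *
          ((M⁻¹ : GL (Fin (3 + 1)) K) : Matrix (Fin (3 + 1)) (Fin (3 + 1)) K) =
          ((((M⁻¹ : GL (Fin (3 + 1)) K) : Matrix (Fin (3 + 1)) (Fin (3 + 1)) K).map ψ)ᵀ *
          ((M : Matrix (Fin (3 + 1)) (Fin (3 + 1)) K).map ψ)ᵀ) * J *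
          ((M : Matrix (Fin (3 + 1)) (Fin (3 + 1)) K) * ((M⁻¹ : GL (Fin (3 + 1)) K) :
            Matrix (Fin (3 + 1)) (Fin (3 + 1)) K)) := by
        conv_lhs => rw [← h2]
        simp only [Matrix.mul_assoc]
      rw [e4, e3, e1]
      simp
    · have h4 := congrArg Matrix.det e1
      rw [Matrix.det_mul, h3, one_mul, Matrix.det_one] at h4
      exact h4

theorem ev_inO {K : Type} [Field K] (σ : K →+* K) (u : K)
    {M : Matrix (Fin (3 + 1)) (Fin (3 + 1)) K[X]} (hu : σ u = u)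
    (hM : InO (mapRingHom σ) X M) : InO σ u (M.map (eval u)) := by
  have h := congrArg (fun Z => Z.map (evalRingHom u)) hM
  simp only [Matrix.map_mul] at h
  rw [AB_pm_map] at h
  unfold InO
  have e1 : (M.map (mapRingHom σ)).map (evalRingHom u) = (M.map (eval u)).map σ := by
    ext i j
    simp only [Matrix.map_apply, coe_evalRingHom, coe_mapRingHom]
    have h2 := Polynomial.eval₂_at_apply (p := M i j) σ u
    rw [hu] at h2
    rw [eval_map, h2]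
  rw [e1] at h
  simpa using h

theorem hgr {K : Type} [Field K] [Finite K] (q : ℕ) (hq : 4 ≤ q) (ho : Odd q)
    (hK : Nat.card K = q ^ 8) (ψ : K →+* K) (hψ : ∀ a, ψ a = a ^ q) (h2 : (2 : K) ≠ 0)
    (h8 : ∀ a, ψ^[8] a = a) {ι : Type} (D : Datum K 3 ι) (hDσ : D.σ = ψ.comp ψ) (hDε : D.ε = 1)
    (e : ι → K) (h0 : ∀ i, e i ≠ 0)
    (hiso : ∀ i, e i * ψ (e i) + ψ (e i) * ψ^[6] (e i) + ψ^[6] (e i) * ψ^[7] (e i) =
        ψ^[3] (e i) * ψ^[4] (e i))
    (hT : ∀ i, D.T i = T4 ψ (e i)) (c : K) (hc : ∀ i, D.c i = c) (t : ℕ) (ht : t ≤ 1) :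
    ∃ (H : Type) (_ : Group H) (_ : Finite H) (h : ι → H), Nat.card H ≤ 20 * q ^ (15 * t) ∧
      ∀ L : List (ι × ι), L ≠ [] → (L.map fun p => h p.1 * (h p.2)⁻¹).prod = 1 →
        (X + 1 : K[X]) ^ (4 * t) ∣ ((L.map fun p => (D.T p.2).det).prod •
          (1 : Matrix (Fin (3 + 1)) (Fin (3 + 1)) K[X]) -
          (L.map fun p => D.T p.1 * (D.T p.2).adjugate).prod).det := by
  interval_cases t
  · refine ⟨Equiv.Perm (Fin 1), inferInstance, inferInstance, fun _ => 1, ?_, fun L _ _ => by simp⟩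
    rw [Nat.card_eq_fintype_card, Fintype.card_perm]
    simp
  rcases isEmpty_or_nonempty ι with hι | ⟨⟨i0⟩⟩
  · refine ⟨Equiv.Perm (Fin 1), inferInstance, inferInstance, fun _ => 1, ?_, fun L hL _ => ?_⟩
    · rw [Nat.card_eq_fintype_card, Fintype.card_perm]
      have : 0 < q ^ (15 * 1) := by positivity
      simp only [Fintype.card_fin, Nat.factorial_one]
      omega
    · obtain ⟨p, hp⟩ := List.exists_mem_of_ne_nil L hL
      exact (hι.false p.1).elim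
  have hσu : D.σ (-1) = -1 := by simp
  have hdet : ∀ i, ((D.T i).map (eval (-1))).det = c * 2 := by
    intro i
    have := (RingHom.map_det (evalRingHom (-1)) (D.T i)).symm
    simp only [RingHom.mapMatrix_apply, coe_evalRingHom] at this
    rw [this, D.hdet, hc, hDε]
    simp
    left
    norm_num
  have hc0 : c ≠ 0 := by rw [← hc i0]; exact D.hc i0
  have hu : ∀ i, IsUnit ((D.T i).map (eval (-1))).det := fun i => by
    rw [hdet]; exact (mul_ne_zero hc0 h2).isUnit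
  obtain ⟨g, hg⟩ : ∃ g : ι → GL (Fin (3 + 1)) K,
      ∀ i, (g i : Matrix (Fin (3 + 1)) (Fin (3 + 1)) K) = (D.T i).map (eval (-1)) :=
    ⟨fun i => Matrix.GeneralLinearGroup.mk'' _ (hu i), fun i => rfl⟩
  have hg1 : ∀ i, (g i : Matrix (Fin (3 + 1)) (Fin (3 + 1)) K) *
      ((g i)⁻¹ : GL (Fin (3 + 1)) K) = 1 := fun i => by
    rw [← Units.val_mul]; simp
  have hg2 : ∀ i, (((g i)⁻¹ : GL (Fin (3 + 1)) K) :
      Matrix (Fin (3 + 1)) (Fin (3 + 1)) K) * g i = 1 := fun i => by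
    rw [← Units.val_mul]; simp
  have hO : ∀ i, InO (ψ.comp ψ) (-1) (g i : Matrix (Fin (3 + 1)) (Fin (3 + 1)) K) := by
    intro i
    rw [hg, ← hDσ]
    exact ev_inO D.σ (-1) hσu (D.hT i)
  have hun : ∀ i, ((g i : Matrix (Fin (3 + 1)) (Fin (3 + 1)) K).map ψ)ᵀ * (1 + Pm 3 (-1 : K)) *
      (g i : Matrix (Fin (3 + 1)) (Fin (3 + 1)) K) =
      !![1, 1, 1, -1; 1, 1, 1, 1; -1, 1, 1, 1; -1, -1, 1, 1] := by
    intro i
    rw [hg, hT]
    exact uni ψ h8 (e i) (h0 i) (hiso i)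
  have hmem : ∀ i, g i * (g i0)⁻¹ ∈ Hs ψ (1 + Pm 3 (-1 : K)) := by
    intro i
    refine ⟨?_, ?_, ?_⟩
    · rw [Units.val_mul]
      exact (hO i).mul ((hO i0).inv (hg1 i0) (hg2 i0))
    · rw [Units.val_mul, Matrix.map_mul, Matrix.transpose_mul]
      have e3 : ((((g i0)⁻¹ : GL (Fin (3 + 1)) K) : Matrix (Fin (3 + 1)) (Fin (3 + 1)) K).map ψ)ᵀ *
          ((g i0 : Matrix (Fin (3 + 1)) (Fin (3 + 1)) K).map ψ)ᵀ = 1 := by
        rw [← Matrix.transpose_mul, ← Matrix.map_mul, hg1, Matrix.map_one ψ (map_zero ψ) (map_one ψ),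
          Matrix.transpose_one]
      calc _ = ((((g i0)⁻¹ : GL (Fin (3 + 1)) K) : Matrix (Fin (3 + 1)) (Fin (3 + 1)) K).map ψ)ᵀ *
            (((g i : Matrix (Fin (3 + 1)) (Fin (3 + 1)) K).map ψ)ᵀ * (1 + Pm 3 (-1 : K)) *
            (g i : Matrix (Fin (3 + 1)) (Fin (3 + 1)) K)) *
            (((g i0)⁻¹ : GL (Fin (3 + 1)) K) : Matrix (Fin (3 + 1)) (Fin (3 + 1)) K) := by
              simp only [Matrix.mul_assoc]
        _ = ((((g i0)⁻¹ : GL (Fin (3 + 1)) K) : Matrix (Fin (3 + 1)) (Fin (3 + 1)) K).map ψ)ᵀ *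
            (((g i0 : Matrix (Fin (3 + 1)) (Fin (3 + 1)) K).map ψ)ᵀ * (1 + Pm 3 (-1 : K)) *
            (g i0 : Matrix (Fin (3 + 1)) (Fin (3 + 1)) K)) *
            (((g i0)⁻¹ : GL (Fin (3 + 1)) K) : Matrix (Fin (3 + 1)) (Fin (3 + 1)) K) := by
              rw [hun i, hun i0]
        _ = (((((g i0)⁻¹ : GL (Fin (3 + 1)) K) : Matrix (Fin (3 + 1)) (Fin (3 + 1)) K).map ψ)ᵀ *
            ((g i0 : Matrix (Fin (3 + 1)) (Fin (3 + 1)) K).map ψ)ᵀ) * (1 + Pm 3 (-1 : K)) *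
            ((g i0 : Matrix (Fin (3 + 1)) (Fin (3 + 1)) K) *
            (((g i0)⁻¹ : GL (Fin (3 + 1)) K) : Matrix (Fin (3 + 1)) (Fin (3 + 1)) K)) := by
              simp only [Matrix.mul_assoc]
        _ = _ := by rw [e3, hg1]; simp
    · have e4 := congrArg Matrix.det (hg1 i0)
      rw [Matrix.det_mul, Matrix.det_one, hg, hdet] at e4
      rw [Units.val_mul, Matrix.det_mul, hg, hdet, e4]
  have hfin : Finite (GL (Fin (3 + 1)) K) := by
    have : Finite (Matrix (Fin (3 + 1)) (Fin (3 + 1)) K) := by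
      unfold Matrix; infer_instance
    exact Finite.of_injective (fun M : GL (Fin (3 + 1)) K =>
      (M : Matrix (Fin (3 + 1)) (Fin (3 + 1)) K)) Units.val_injective
  refine ⟨Hs ψ (1 + Pm 3 (-1 : K)), inferInstance, inferInstance, fun i => ⟨g i * (g i0)⁻¹, hmem i⟩,
    ?_, fun L hL h1 => ?_⟩
  · have : Finite (Matrix (Fin (3 + 1)) (Fin (3 + 1)) K) := by
      unfold Matrix; infer_instance
    refine le_trans (Nat.card_le_card_of_injective
      (fun M : Hs ψ (1 + Pm 3 (-1 : K)) =>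
        (⟨((M : GL (Fin (3 + 1)) K) : Matrix (Fin (3 + 1)) (Fin (3 + 1)) K), M.2⟩ :
          {M : Matrix (Fin (3 + 1)) (Fin (3 + 1)) K // InO (ψ.comp ψ) (-1) M ∧
            (M.map ψ)ᵀ * (1 + Pm 3 (-1)) * M = 1 + Pm 3 (-1) ∧ M.det = 1})) ?_) ?_
    · intro M M' hMM
      apply Subtype.ext
      apply Units.ext
      exact congrArg Subtype.val hMM
    · simpa using cntH q hq ho hK ψ hψ h2
  · have h3 : (L.map fun p => g p.1 * (g p.2)⁻¹).prod = 1 := by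
      have h4 := congrArg (Hs ψ (1 + Pm 3 (-1 : K))).subtype h1
      rw [map_list_prod, List.map_map, map_one] at h4
      rw [← h4]
      refine congrArg List.prod (List.map_congr_left fun p _ => ?_)
      rw [Function.comp_apply, map_mul, map_inv]
      change _ = (g p.1 * (g i0)⁻¹) * (g p.2 * (g i0)⁻¹)⁻¹
      group
    exact wdvd D g hg L h3

end Pool.Agent.H2.EV
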