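import Pool.Agent.H2.L.R_seed8.H7R2.LG.Recip

set_option autoImplicit false

/-! # EV-REC: self-reciprocal polynomials (helper71) -/

namespace Pool.Agent.H2.EV

open Matrix Polynomial Pool.Agent.H7R2.LG

theorem rec {K : Type} [Field K] (ψ : K →+* K) (p : K[X]) (hp : p ≠ 0) (κ : K) (hκ : κ ≠ 0)
    (r m s : ℕ) (h : Psi ψ p * (algebraMap K[X] (FractionRing K[X]) X) ^ r =
      algebraMap K[X] (FractionRing K[X]) (C κ * p)) (hm : (X : K[X]) ^ m ∣ p)
    (hs : (X + 1 : K[X]) ^ s ∣ p) :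
    2 * m + s ≤ r ∧
      (r = 2 * m + s → ∃ c : K, c ≠ 0 ∧ p = C c * X ^ m * (X + 1) ^ s ∧ ψ c = κ * c) := by
  have h1 : algebraMap K[X] (FractionRing K[X]) ((p.map ψ).reverse * X ^ r) =
      algebraMap K[X] (FractionRing K[X]) (C κ * p * X ^ p.natDegree) := by
    rw [map_mul, ← A3_psi, map_pow, mul_right_comm, h, map_mul, map_mul, map_mul, map_pow]
  have h2 := IsFractionRing.injective K[X] (FractionRing K[X]) h1
  have h3 : p.map ψ ≠ 0 := by
    rwa [Ne, Polynomial.map_eq_zero]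
  have h4 : (p.map ψ).reverse ≠ 0 := by
    rwa [Ne, Polynomial.reverse_eq_zero]
  have h5 : C κ * p ≠ 0 := mul_ne_zero (by simpa using hκ) hp
  have hr := congrArg Polynomial.natTrailingDegree h2
  rw [Polynomial.natTrailingDegree_mul_X_pow h4, Polynomial.natTrailingDegree_mul_X_pow h5,
    Polynomial.natTrailingDegree_mul (by simpa using hκ) hp, Polynomial.natTrailingDegree_C,
    zero_add, Polynomial.natTrailingDegree_reverse, zero_add] at hr
  have hmt : m ≤ p.natTrailingDegree := by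
    obtain ⟨q, hq⟩ := hm
    have hq0 : q ≠ 0 := by rintro rfl; apply hp; rw [hq, mul_zero]
    rw [hq, mul_comm, Polynomial.natTrailingDegree_mul_X_pow hq0]
    omega
  obtain ⟨t, ht⟩ : ∃ t, t = p.natTrailingDegree := ⟨_, rfl⟩
  rw [← ht] at hr hmt
  obtain ⟨p', hp'⟩ : (X : K[X]) ^ t ∣ p := by
    rw [Polynomial.X_pow_dvd_iff]
    intro d hd
    exact Polynomial.coeff_eq_zero_of_lt_natTrailingDegree (by rw [← ht]; exact hd)
  have hX1 : (X + 1 : K[X]).Monic := by
    have := Polynomial.monic_X_add_C (1 : K)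
    rwa [Polynomial.C_1] at this
  have hX1d : (X + 1 : K[X]).natDegree = 1 := by
    have := Polynomial.natDegree_X_add_C (1 : K)
    rwa [Polynomial.C_1] at this
  have hcop : IsCoprime ((X + 1 : K[X]) ^ s) (X ^ t) := by
    refine IsCoprime.pow ⟨1, -1, ?_⟩
    ring
  obtain ⟨u, hu⟩ : (X + 1 : K[X]) ^ s ∣ p' :=
    hcop.dvd_of_dvd_mul_left (by rw [← hp']; exact hs)
  rw [hu] at hp'
  have hu0 : u ≠ 0 := by
    rintro rfl
    apply hp
    rw [hp', mul_zero, mul_zero]
  have hdeg : p.natDegree = t + (s + u.natDegree) := by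
    rw [hp', Polynomial.natDegree_mul (pow_ne_zero _ X_ne_zero)
      (mul_ne_zero (pow_ne_zero _ hX1.ne_zero) hu0), Polynomial.natDegree_X_pow,
      Polynomial.natDegree_mul (pow_ne_zero _ hX1.ne_zero) hu0, Polynomial.natDegree_pow, hX1d,
      mul_one]
  refine ⟨by omega, fun heq => ?_⟩
  have htm : t = m := by omega
  have hud : u.natDegree = 0 := by omega
  obtain ⟨c, hc⟩ : ∃ c, c = u.coeff 0 := ⟨_, rfl⟩
  have huc : u = C c := by rw [hc]; exact Polynomial.eq_C_of_natDegree_eq_zero hud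
  have hc0 : c ≠ 0 := by
    rintro rfl
    rw [C_0] at huc
    exact hu0 huc
  have hpc : p = C c * X ^ m * (X + 1) ^ s := by
    rw [hp', huc, htm]
    ring
  refine ⟨c, hc0, hpc, ?_⟩
  have h6 : ((p.map ψ).reverse * X ^ r).coeff r = (C κ * p * X ^ p.natDegree).coeff r := by
    rw [h2]
  have e1 : ((p.map ψ).reverse * X ^ r).coeff r = ψ p.leadingCoeff := by
    have := Polynomial.coeff_mul_X_pow (p.map ψ).reverse r 0
    rw [zero_add] at this
    rw [this, Polynomial.coeff_zero_reverse, Polynomial.leadingCoeff_map]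
  have e2 : (C κ * p * X ^ p.natDegree).coeff r = κ * p.coeff m := by
    have e3 : r = m + p.natDegree := by omega
    rw [e3, Polynomial.coeff_mul_X_pow, Polynomial.coeff_C_mul]
  have e4 : p.leadingCoeff = c := by
    rw [hpc, Polynomial.leadingCoeff_mul, Polynomial.leadingCoeff_mul,
      (hX1.pow s).leadingCoeff, Polynomial.leadingCoeff_C, (monic_X_pow m).leadingCoeff]
    ring
  have e5 : p.coeff m = c := by
    have e6 : p = C c * (X + 1) ^ s * X ^ m := by rw [hpc]; ring
    rw [e6]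
    have := Polynomial.coeff_mul_X_pow (C c * (X + 1) ^ s : K[X]) m 0
    rw [zero_add] at this
    rw [this, Polynomial.coeff_C_mul, Polynomial.coeff_zero_eq_eval_zero]
    simp
  rw [e1, e2, e4, e5] at h6
  exact h6

end Pool.Agent.H2.EV
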