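import Pool.Agent.H2.EV.Cos
import Pool.Agent.H2.EV.Fam
import Pool.Agent.H2.EV.Rec
import Pool.Agent.H2.EV.Lvl

set_option autoImplicit false

/-! The tower of `U(4)` graphs in odd characteristic with half layers and level structure at `X = -1`. -/

namespace Pool.Agent.H2.EV

open Matrix Polynomial Pool.Agent.H7R2.LG

theorem AB_cc {K : Type} [Field K] (p : K[X]) :
    PowerSeries.constantCoeff (AB_cs K p) = p.coeff 0 := by
  rw [AB_cs_apply, ← PowerSeries.coeff_zero_eq_constantCoeff_apply, Polynomial.coeff_coe]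

theorem AB_inj {K : Type} [Field K] : Function.Injective (AB_cs K) :=
  Polynomial.coe_injective K

/-- The core argument: no short relations. -/
theorem core {K : Type} [Field K] (ψ : K →+* K) (h2 : (2 : K) ≠ 0)
    {ι : Type} (D : Datum K 3 ι) (hDσ : D.σ = ψ.comp ψ) (hDψ : D.ψ = ψ) (hDε : D.ε = 1)
    (c : K) (hc : ∀ i, D.c i = c)
    (g : ι → GL (Fin (3 + 1)) (PowerSeries K))
    (hg : ∀ i, (g i : Matrix (Fin (3 + 1)) (Fin (3 + 1)) (PowerSeries K)) =
      (D.T i).map (AB_cs K)) (L : List (ι × ι)) (hL : Red L) (hne : L ≠ []) (m s hl : ℕ)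
    (hs : Even s) (hh : hl ≤ 1)
    (N : Matrix (Fin (3 + 1)) (Fin (3 + 1)) (PowerSeries K))
    (hN : (((L.map fun p => g p.1 * (g p.2)⁻¹).prod : GL (Fin (3 + 1)) (PowerSeries K)) :
            Matrix (Fin (3 + 1)) (Fin (3 + 1)) (PowerSeries K)) - 1 =
      N * Pm 3 (PowerSeries.X : PowerSeries K) ^ m)
    (hz : hl = 1 → ∃ z : K, D.σ z = -z ∧ PowerSeries.constantCoeff N.det = z ^ 2)
    (hX1 : (X + 1 : K[X]) ^ s ∣ ((L.map fun p => (D.T p.2).det).prod •
          (1 : Matrix (Fin (3 + 1)) (Fin (3 + 1)) K[X]) -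
          (L.map fun p => D.T p.1 * (D.T p.2).adjugate).prod).det) :
    2 * m + s + hl ≤ L.length := by
  obtain ⟨p, hp0, hp1, hκ, hp2, hΛ⟩ := pex D L hL hne
  set Λ := (L.map fun p => (D.T p.2).det).prod with hΛdef
  have hcQ : (L.map fun p => D.c p.2).prod = c ^ L.length := by
    have : (fun p : ι × ι => D.c p.2) = fun _ => c := by funext p; exact hc _
    rw [this, List.map_const', List.prod_replicate]
  have hcP : (L.map fun p => D.c p.1).prod = c ^ L.length := by
    have : (fun p : ι × ι => D.c p.1) = fun _ => c := by funext p; exact hc _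
    rw [this, List.map_const', List.prod_replicate]
  have hc0 : c ≠ 0 := by
    obtain ⟨x, hx⟩ := List.exists_mem_of_ne_nil L hne
    rw [← hc x.1]
    exact D.hc _
  have hcL : c ^ L.length ≠ 0 := pow_ne_zero _ hc0
  rw [hcQ] at hΛ
  rw [hcQ, hcP] at hκ hp2
  -- coprimality
  have hcop : ∀ u : K[X], IsCoprime u (1 - C D.ε * X) → IsCoprime u Λ := by
    intro u hu
    rw [hΛ]
    refine IsCoprime.mul_right ?_ hu.pow_right
    exact (isCoprime_one_right (x := u)).of_isCoprime_of_dvd_right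
      (isUnit_iff_dvd_one.mp (isUnit_C.mpr hcL.isUnit))
  have hXs : (X + 1 : K[X]) ^ s ∣ p := by
    rw [← hp1] at hX1
    have hco : IsCoprime (X + 1 : K[X]) (1 - C D.ε * X) := by
      rw [hDε]
      refine ⟨C (2⁻¹), C (2⁻¹), ?_⟩
      have : (C (2⁻¹ : K) : K[X]) * 2 = 1 := by
        have e2 : (2 : K[X]) = C 2 := (map_ofNat C 2).symm
        rw [e2, ← C_mul, inv_mul_cancel₀ h2, C_1]
      rw [C_1]
      linear_combination this
    exact (IsCoprime.pow (hcop _ hco)).dvd_of_dvd_mul_left hX1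
  -- the power series
  have hw := wdet D g hg L m N hN
  rw [← hΛdef, ← hp1, map_mul, map_pow] at hw
  have hΛ0 : AB_cs K Λ ≠ 0 := by
    intro h0
    have h1 := AB_inj (h0.trans (map_zero _).symm)
    rw [hΛ] at h1
    have h2' := congrArg (eval 0) h1
    simp [hc0] at h2'
  have hps : AB_cs K p = AB_cs K Λ * N.det * ((-1) ^ 3 * (PowerSeries.X : PowerSeries K)) ^ m := by
    apply mul_left_cancel₀ (pow_ne_zero 3 hΛ0)
    rw [hw]
    ring
  have hXm : (X : K[X]) ^ m ∣ p := by
    apply AB_dvd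
    rw [hps, mul_pow]
    exact Dvd.dvd.mul_left (Dvd.intro_left _ rfl) _
  obtain ⟨r1, r2⟩ := rec D.ψ p hp0 _ hκ L.length m s hp2 hXm hXs
  rcases Nat.eq_zero_or_pos hl with hl0 | hl0
  · omega
  have hl1 : hl = 1 := by omega
  by_contra hcon
  have hlen : L.length = 2 * m + s := by omega
  obtain ⟨u, hu0, hu1, hu2⟩ := r2 hlen
  obtain ⟨z, hz1, hz2⟩ := hz hl1
  apply hu0
  -- comparison of the coefficients of `X^m`
  have hcomp : u = c ^ L.length * z ^ 2 * (-1) ^ m := by
    have e1 : AB_cs K (C u * (X + 1) ^ s) * (PowerSeries.X : PowerSeries K) ^ m =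
        (AB_cs K Λ * N.det * (-1) ^ m) * (PowerSeries.X : PowerSeries K) ^ m := by
      have : AB_cs K p = AB_cs K (C u * (X + 1) ^ s) * (PowerSeries.X : PowerSeries K) ^ m := by
        rw [hu1, ← AB_cs_X (K := K), ← map_pow, ← map_mul]
        congr 1
        ring
      rw [← this, hps, mul_pow, ← pow_mul, mul_comm 3 m, pow_mul, ← mul_assoc]
      congr 2
      rcases Nat.even_or_odd m with hm | hm
      · rw [hm.neg_one_pow]; simp
      · rw [hm.neg_one_pow]; norm_num
    have e2 := mul_right_cancel₀ (pow_ne_zero m PowerSeries.X_ne_zero) e1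
    have e3 := congrArg (⇑(PowerSeries.constantCoeff (R := K))) e2
    rw [AB_cc, map_mul, map_mul, AB_cc, hz2, hΛ, mul_coeff_zero, mul_coeff_zero] at e3
    simpa [coeff_zero_eq_eval_zero] using e3
  have hε1 : (-D.ε) ^ L.length = 1 := by
    rw [hlen, hDε]
    have : Even (2 * m + s) := by
      rcases hs with ⟨s', hs'⟩
      exact ⟨m + s', by omega⟩
    exact this.neg_one_pow
  rw [hε1, hcomp, hDψ] at hu2
  have hψc : ψ (c ^ L.length) ≠ 0 := (map_ne_zero ψ).2 hcL
  have hfix : ψ z ^ 2 = z ^ 2 := by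
    have hm1 : ((-1 : K)) ^ m ≠ 0 := pow_ne_zero _ (by simp)
    have e4 : ψ (c ^ L.length) * ψ z ^ 2 * (-1) ^ m = ψ (c ^ L.length) * z ^ 2 * (-1) ^ m := by
      have e5 : ψ (c ^ L.length * z ^ 2 * (-1) ^ m) =
          ψ (c ^ L.length) * ψ z ^ 2 * (-1) ^ m := by simp
      rw [← e5, hu2]
      field_simp
      ring
    have e6 := mul_right_cancel₀ hm1 e4
    exact mul_left_cancel₀ hψc e6
  have hz0 : z = 0 := by
    have h3 : ψ (ψ z) = z := by
      rcases sq_eq_sq_iff_eq_or_eq_neg.1 hfix with h | h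
      · rw [h, h]
      · rw [h, map_neg, h, neg_neg]
    have h4 : z = -z := by
      rw [← hz1, hDσ]
      exact h3.symm
    have h5 : (2 : K) * z = 0 := by linear_combination h4
    exact (mul_eq_zero.1 h5).resolve_left h2
  rw [hcomp, hz0]
  simp

end Pool.Agent.H2.EV
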