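import Pool.Agent.H2.L.R_seed8.H7R2.LG.Defs

set_option autoImplicit false

/-! EV-COS (helper51): the bipartite graph of a right action with a family of group elements
(after `LG/GraphC.lean`). -/

namespace Pool.Agent.H2.EV

open Matrix Polynomial Pool.Agent.H7R2.LG

namespace Cos

variable {G Ω : Type} [Group G] {ι : Type}

/-- `inl x` is joined to `inr (act x (t P))`. -/
def bip (act : Ω → G → Ω) (t : ι → G) : SimpleGraph (Ω ⊕ Ω) where
  Adj u v := match u, v with
    | Sum.inl g, Sum.inr h => ∃ P, h = act g (t P)
    | Sum.inr h, Sum.inl g => ∃ P, h = act g (t P)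
    | _, _ => False
  symm := ⟨by rintro (g | g) (h | h) H <;> exact H⟩
  loopless := ⟨by rintro (g | g) H <;> exact H⟩

variable {act : Ω → G → Ω}

theorem adj_lr {t : ι → G} {g h : Ω} :
    (bip act t).Adj (Sum.inl g) (Sum.inr h) ↔ ∃ P, h = act g (t P) := Iff.rfl

theorem adj_rl {t : ι → G} {g h : Ω} :
    (bip act t).Adj (Sum.inr h) (Sum.inl g) ↔ ∃ P, h = act g (t P) := Iff.rfl

theorem not_adj_ll {t : ι → G} {g h : Ω} : ¬ (bip act t).Adj (Sum.inl g) (Sum.inl h) := fun H => H

theorem not_adj_rr {t : ι → G} {g h : Ω} : ¬ (bip act t).Adj (Sum.inr g) (Sum.inr h) := fun H => H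

theorem act_inv (h1 : ∀ x, act x 1 = x) (hmul : ∀ x g h, act x (g * h) = act (act x g) h)
    (x : Ω) (g : G) : act (act x g) g⁻¹ = x := by
  rw [← hmul, mul_inv_cancel, h1]

theorem inv_act (h1 : ∀ x, act x 1 = x) (hmul : ∀ x g h, act x (g * h) = act (act x g) h)
    (x : Ω) (g : G) : act (act x g⁻¹) g = x := by
  rw [← hmul, inv_mul_cancel, h1]

/-- words from trails -/
theorem walk_lemma (h1 : ∀ x, act x 1 = x) (hmul : ∀ x g h, act x (g * h) = act (act x g) h)
    (t : ι → G) : ∀ (n : ℕ) (u v : Ω ⊕ Ω) (w : (bip act t).Walk u v) (g g' : Ω),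
    u = Sum.inl g → v = Sum.inl g' → w.length ≤ n → w.IsTrail →
    ∃ L : List (ι × ι), Red L ∧ 2 * L.length = w.length ∧
      g' = act g (L.map fun p => t p.1 * (t p.2)⁻¹).prod ∧
      ∀ p ∈ L.head?, s(Sum.inl g, Sum.inr (act g (t p.1))) ∈ w.edges := by
  intro n
  induction n with
  | zero =>
    intro u v w g g' hu hv hn _
    cases w with
    | nil =>
      subst hu
      have hgg : g = g' := Sum.inl.inj hv
      refine ⟨[], ⟨by simp, by simp⟩, by simp, by simp [hgg, h1], by simp⟩
    | cons h w1 =>
      simp at hn
  | succ n ih =>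
    intro u v w g g' hu hv hn ht
    cases w with
    | nil =>
      subst hu
      have hgg : g = g' := Sum.inl.inj hv
      refine ⟨[], ⟨by simp, by simp⟩, by simp, by simp [hgg, h1], by simp⟩
    | @cons _ x _ ha1 w1 =>
      subst hu
      cases w1 with
      | nil =>
        subst hv
        exact absurd ha1 not_adj_ll
      | @cons _ y _ ha2 w2 =>
        rcases x with x | x
        · exact absurd ha1 not_adj_ll
        rcases y with g1 | y
        swap
        · exact absurd ha2 not_adj_rr
        obtain ⟨P, hP⟩ := adj_lr.1 ha1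
        obtain ⟨Q, hQ⟩ := adj_rl.1 ha2
        rw [SimpleGraph.Walk.isTrail_cons] at ht
        obtain ⟨ht1, hne1⟩ := ht
        rw [SimpleGraph.Walk.isTrail_cons] at ht1
        obtain ⟨ht2, hne2⟩ := ht1
        obtain ⟨L, hL, hlen, hprod, hhead⟩ := ih _ _ w2 g1 g' rfl hv
          (by simp only [SimpleGraph.Walk.length_cons] at hn; omega) ht2
        have hg1 : g1 = act g (t P * (t Q)⁻¹) := by
          rw [hmul, ← hP, hQ, act_inv h1 hmul]
        have hPQ : P ≠ Q := by
          intro hPQ
          subst hPQ
          have hg : g1 = g := by rw [hg1, mul_inv_cancel, h1]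
          apply hne1
          rw [SimpleGraph.Walk.edges_cons]
          refine List.mem_cons.2 (Or.inl ?_)
          rw [hg]
          exact Sym2.eq_swap
        refine ⟨(P, Q) :: L, ⟨?_, ?_⟩, ?_, ?_, ?_⟩
        · intro p hp
          rcases List.mem_cons.1 hp with hp | hp
          · rw [hp]
            exact hPQ
          · exact hL.1 p hp
        · cases L with
          | nil => exact List.isChain_singleton _
          | cons p' L' =>
            rw [List.isChain_cons_cons]
            refine ⟨?_, hL.2⟩
            intro hQp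
            have hh := hhead p' (by simp)
            apply hne2
            have e : act g1 (t p'.1) = x := by
              rw [← hQp, hQ]
            rw [e] at hh
            rw [Sym2.eq_swap]
            exact hh
        · simp only [List.length_cons, SimpleGraph.Walk.length_cons]
          omega
        · rw [List.map_cons, List.prod_cons, hmul, ← hg1]
          exact hprod
        · intro p hp
          have hp' : p = (P, Q) := by simpa using hp.symm
          rw [hp', SimpleGraph.Walk.edges_cons, ← hP]
          exact List.mem_cons_self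

/-- the number of edges of a closed trail at a left vertex -/
theorem cycle_left (h1 : ∀ x, act x 1 = x) (hmul : ∀ x g h, act x (g * h) = act (act x g) h)
    (t : ι → G) (R : ℕ)
    (h : ∀ L : List (ι × ι), Red L → L ≠ [] → L.length < R →
      ∀ x, act x (L.map fun p => t p.1 * (t p.2)⁻¹).prod ≠ x) (g : Ω)
    (w : (bip act t).Walk (Sum.inl g) (Sum.inl g)) (hw : w.IsCycle) : 2 * R ≤ w.length := by
  obtain ⟨L, hL, hlen, hprod, -⟩ :=
    walk_lemma h1 hmul t w.length _ _ w g g rfl rfl le_rfl hw.isTrail
  have h3 := hw.three_le_length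
  by_contra hcon
  refine h L hL ?_ (by omega) g hprod.symm
  intro h0
  rw [h0] at hlen
  simp at hlen
  omega

theorem cycle_all (h1 : ∀ x, act x 1 = x) (hmul : ∀ x g h, act x (g * h) = act (act x g) h)
    (t : ι → G) (R : ℕ)
    (h : ∀ L : List (ι × ι), Red L → L ≠ [] → L.length < R →
      ∀ x, act x (L.map fun p => t p.1 * (t p.2)⁻¹).prod ≠ x) (a : Ω ⊕ Ω)
    (w : (bip act t).Walk a a) (hw : w.IsCycle) : 2 * R ≤ w.length := by
  classical
  rcases a with g | x
  · exact cycle_left h1 hmul t R h g w hw
  · have h2 : ∃ g : Ω, Sum.inl g ∈ w.support := by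
      cases w with
      | nil => exact absurd hw SimpleGraph.Walk.not_isCycle_nil
      | @cons _ y _ ha1 w1 =>
        rcases y with g | y
        · exact ⟨g, by simp⟩
        · exact absurd ha1 not_adj_rr
    obtain ⟨g, hg⟩ := h2
    have h2 := cycle_left h1 hmul t R h g (w.rotate _ hg) (hw.rotate hg)
    rw [SimpleGraph.Walk.length_rotate] at h2
    exact h2

end Cos

open Cos in
theorem cos {G Ω : Type} [Group G] [Finite Ω] {ι : Type} [Fintype ι] [DecidableEq ι]
    (act : Ω → G → Ω) (h1 : ∀ x, act x 1 = x) (hmul : ∀ x g h, act x (g * h) = act (act x g) h)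
    (t : ι → G) (R : ℕ) (hR : 2 ≤ R)
    (h : ∀ L : List (ι × ι), Red L → L ≠ [] → L.length < R →
      ∀ x, act x (L.map fun p => t p.1 * (t p.2)⁻¹).prod ≠ x) :
    ∃ (V : Type) (_ : Fintype V) (Γ : SimpleGraph V) (_ : DecidableRel Γ.Adj),
      Γ.IsRegularOfDegree (Fintype.card ι) ∧ ((2 * R : ℕ) : ℕ∞) ≤ Γ.egirth ∧ Γ.Colorable 2 ∧
      Fintype.card V = 2 * Nat.card Ω := by
  classical
  have hinj : ∀ x, Function.Injective fun P => act x (t P) := by
    intro x P Q hPQ
    by_contra hne
    refine h [(P, Q)] ⟨?_, ?_⟩ (by simp) (by simp; omega) x ?_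
    · intro p hp
      rw [List.mem_singleton] at hp
      rw [hp]
      exact hne
    · exact List.isChain_singleton _
    · simp only at hPQ
      simp only [List.map_cons, List.map_nil, List.prod_cons, List.prod_nil, mul_one]
      rw [hmul, hPQ, act_inv h1 hmul]
  have hinj2 : ∀ x, Function.Injective fun P => act x (t P)⁻¹ := by
    intro x P Q hPQ
    by_contra hne
    simp only at hPQ
    refine h [(P, Q)] ⟨?_, ?_⟩ (by simp) (by simp; omega) (act x (t P)⁻¹) ?_
    · intro p hp
      rw [List.mem_singleton] at hp
      rw [hp]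
      exact hne
    · exact List.isChain_singleton _
    · simp only [List.map_cons, List.map_nil, List.prod_cons, List.prod_nil, mul_one]
      rw [hmul, inv_act h1 hmul, hPQ]
  have : Fintype Ω := Fintype.ofFinite Ω
  refine ⟨Ω ⊕ Ω, inferInstance, bip act t, Classical.decRel _, ?_, ?_, ?_, ?_⟩
  · intro v
    rcases v with g | x
    · rw [SimpleGraph.degree]
      have e : (bip act t).neighborFinset (Sum.inl g) =
          Finset.univ.image (fun P => (Sum.inr (act g (t P)) : Ω ⊕ Ω)) := by
        ext v
        rw [SimpleGraph.mem_neighborFinset, Finset.mem_image]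
        rcases v with y | y
        · constructor
          · intro H
            exact absurd H not_adj_ll
          · rintro ⟨P, -, H⟩
            exact absurd H (by simp)
        · rw [adj_lr]
          constructor
          · rintro ⟨P, H⟩
            exact ⟨P, Finset.mem_univ _, by rw [H]⟩
          · rintro ⟨P, -, H⟩
            exact ⟨P, (Sum.inr.inj H).symm⟩
      rw [e, Finset.card_image_of_injective, Finset.card_univ]
      intro P Q hPQ
      exact hinj g (Sum.inr.inj hPQ)
    · rw [SimpleGraph.degree]
      have e : (bip act t).neighborFinset (Sum.inr x) =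
          Finset.univ.image (fun P => (Sum.inl (act x (t P)⁻¹) : Ω ⊕ Ω)) := by
        ext v
        rw [SimpleGraph.mem_neighborFinset, Finset.mem_image]
        rcases v with y | y
        · rw [adj_rl]
          constructor
          · rintro ⟨P, H⟩
            exact ⟨P, Finset.mem_univ _, by rw [H, act_inv h1 hmul]⟩
          · rintro ⟨P, -, H⟩
            exact ⟨P, by rw [← Sum.inl.inj H, inv_act h1 hmul]⟩
        · constructor
          · intro H
            exact absurd H not_adj_rr
          · rintro ⟨P, -, H⟩
            exact absurd H (by simp)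
      rw [e, Finset.card_image_of_injective, Finset.card_univ]
      intro P Q hPQ
      exact hinj2 x (Sum.inl.inj hPQ)
  · rw [SimpleGraph.le_egirth]
    intro a w hw
    exact_mod_cast cycle_all h1 hmul t R h a w hw
  · have C : (bip act t).Coloring Bool := SimpleGraph.Coloring.mk (fun v => v.isLeft) (by
      intro u v huv
      rcases u with u | u <;> rcases v with v | v
      · exact absurd huv not_adj_ll
      · simp
      · simp
      · exact absurd huv not_adj_rr)
    have hC := C.colorable
    rwa [Fintype.card_bool] at hC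
  · rw [Fintype.card_sum, Nat.card_eq_fintype_card]
    ring

end Pool.Agent.H2.EV
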