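import Pool.Agent.H2.EV.Asm

set_option autoImplicit false

/-! The `U(4)` graphs. -/

namespace Pool.Agent.H2.EV

open Matrix Polynomial Pool.Agent.H7R2.LG

theorem cneg {K : Type} [Field K] [Finite K] (q : ℕ) (hq : 1 < q) (σ : K →+* K)
    (hσ : ∀ a, σ a = a ^ (q ^ 2)) : Nat.card {u : K // σ u = -u} ≤ q ^ 2 := by
  have h1 : 1 < q ^ 2 := Nat.one_lt_pow (by norm_num) hq
  have hp : (X ^ (q ^ 2) + X : K[X]) ≠ 0 := by
    intro h
    have h1 := congrArg (fun p : K[X] => p.coeff 1) h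
    simp only [coeff_add, coeff_X_pow, coeff_X_one, coeff_zero] at h1
    rw [if_neg (by omega)] at h1
    simp at h1
  refine (E0_root _ hp _ ?_).trans ?_
  · intro y hy
    rw [hσ] at hy
    simp only [eval_add, eval_pow, eval_X]
    rw [hy]; ring
  · refine (natDegree_add_le _ _).trans (max_le ?_ ?_)
    · rw [natDegree_X_pow]
    · rw [natDegree_X]; omega

theorem cfix {K : Type} [Field K] [Finite K] (q : ℕ) (hq : 1 < q) (σ : K →+* K)
    (hσ : ∀ a, σ a = a ^ (q ^ 2)) : Nat.card {u : K // σ (σ u) = u} ≤ q ^ 4 := by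
  have h1 : 1 < q ^ 4 := Nat.one_lt_pow (by norm_num) hq
  have hp : (X ^ (q ^ 4) - X : K[X]) ≠ 0 := by
    intro h
    have h1 := congrArg (fun p : K[X] => p.coeff 1) h
    simp only [coeff_sub, coeff_X_pow, coeff_X_one, coeff_zero] at h1
    rw [if_neg (by omega)] at h1
    simp at h1
  refine (E0_root _ hp _ ?_).trans ?_
  · intro y hy
    rw [hσ, hσ, ← pow_mul, ← pow_add] at hy
    simp only [eval_sub, eval_pow, eval_X]
    norm_num at hy
    rw [hy]; ring
  · refine (natDegree_sub_le _ _).trans (max_le ?_ ?_)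
    · rw [natDegree_X_pow]
    · rw [natDegree_X]; omega

theorem asm (q : ℕ) (hq : IsPrimePow q) (ho : Odd q) (h5 : 5 ≤ q) (m t hl : ℕ) (hm : 1 ≤ m)
    (ht : t ≤ 1) (hh : hl ≤ 1) :
    ∃ (δ : ℕ) (V : Type) (_ : Fintype V) (_ : Nonempty V) (Γ : SimpleGraph V)
      (_ : DecidableRel Γ.Adj),
      Γ.IsRegularOfDegree δ ∧ ((2 * (2 * m + 4 * t + hl) : ℕ) : ℕ∞) ≤ Γ.egirth ∧
      Γ.Colorable 2 ∧ q ^ 3 ≤ 4 * δ ∧
      Fintype.card V ≤ 80 * q ^ (8 * m - 2 - 2 * ((m - 1) / 4) + 15 * t +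
        hl * (if 4 ∣ m then 2 else 4)) := by
  classical
  have hq1 : 1 < q := by omega
  obtain ⟨p, f, hp, hf, hpq⟩ := (isPrimePow_nat_iff _).1 hq
  have : Fact p.Prime := ⟨hp⟩
  have hK : Nat.card (GaloisField p (8 * f)) = q ^ 8 := by
    rw [GaloisField.card p (8 * f) (by omega), ← hpq]; ring
  have : Finite (GaloisField p (8 * f)) := Nat.finite_of_card_ne_zero (by rw [hK]; positivity)
  obtain ⟨ψ, hψ⟩ : ∃ ψ : GaloisField p (8 * f) →+* GaloisField p (8 * f), ∀ a, ψ a = a ^ q :=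
    ⟨iterateFrobenius (GaloisField p (8 * f)) p f, fun a => by
      rw [iterateFrobenius_def, hpq]⟩
  have hψ8 : ∀ a, ψ^[8] a = a := by
    intro a
    rw [E1_iter ψ q hψ 8 a, ← hK, E1_pow_card]
  have h2K : (2 : GaloisField p (8 * f)) ≠ 0 := by
    intro h2
    have h3 : ((2 : ℕ) : GaloisField p (8 * f)) = 0 := by exact_mod_cast h2
    rw [CharP.cast_eq_zero_iff (GaloisField p (8 * f)) p] at h3
    have h4 : p = 2 := (Nat.prime_dvd_prime_iff_eq hp Nat.prime_two).1 h3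
    rw [← hpq, h4] at ho
    exact absurd ((even_two).pow_of_ne_zero (by omega)) (Nat.not_even_iff_odd.2 ho)
  obtain ⟨s, e, c, hs, h0, htr, hiso, hind, hc⟩ := fam q hq1 ho hK ψ hψ
  obtain ⟨D, hDσ, hDψ, hDε, hT, hDc⟩ := datum4x ψ hψ8 e h0 hiso
    (fun L hL hne => ne4 ψ hψ8 e h0 htr hiso hind L hL hne)
  have hDc' : ∀ i, D.c i = c := fun i => (hDc i).trans (hc i)
  have hs0 : 0 < s := by
    have : 0 < q ^ 3 + 1 := by positivity
    omega
  set i0 : Fin s := ⟨0, hs0⟩ with hi0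
  have hσq : ∀ a, D.σ a = a ^ (q ^ 2) := by
    intro a
    rw [hDσ, RingHom.comp_apply, hψ, hψ, ← pow_mul, sq]
  obtain ⟨Ω, fΩ, nΩ, act, a1, a2, a3, a4⟩ := lvl D.σ D.hσ m hl hm hh
  obtain ⟨H, gH, fH, h, b1, b2⟩ := hgr q (by omega) ho hK ψ hψ h2K hψ8 D hDσ hDε e h0 hiso hT c
    hDc' t ht
  -- the letters in `Gs`
  have hdet : ∀ i, ((D.T i).map (AB_cs _)).det = AB_cs _ (C (D.c i) * (1 - C D.ε * X)) := by
    intro i
    rw [← D.hdet i, RingHom.map_det, RingHom.mapMatrix_apply]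
  have hu : ∀ i, IsUnit ((D.T i).map (AB_cs (GaloisField p (8 * f)))).det := fun i => by
    rw [hdet]; exact AB_isUnit _ _ (D.hc i)
  obtain ⟨g, hg⟩ : ∃ g : Fin s → GL (Fin (3 + 1)) (PowerSeries (GaloisField p (8 * f))),
      ∀ i, (g i : Matrix (Fin (3 + 1)) (Fin (3 + 1)) (PowerSeries (GaloisField p (8 * f)))) =
        (D.T i).map (AB_cs _) :=
    ⟨fun i => Matrix.GeneralLinearGroup.mk'' _ (hu i), fun i => rfl⟩
  have hg1 : ∀ i, (g i : Matrix (Fin (3 + 1)) (Fin (3 + 1))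
      (PowerSeries (GaloisField p (8 * f)))) *
      ((g i)⁻¹ : GL (Fin (3 + 1)) (PowerSeries (GaloisField p (8 * f)))) = 1 := fun i => by
    rw [← Units.val_mul]; simp
  have hg2 : ∀ i, (((g i)⁻¹ : GL (Fin (3 + 1)) (PowerSeries (GaloisField p (8 * f)))) :
      Matrix (Fin (3 + 1)) (Fin (3 + 1)) (PowerSeries (GaloisField p (8 * f)))) * g i = 1 :=
    fun i => by rw [← Units.val_mul]; simp
  have hmem : ∀ i, g i * (g i0)⁻¹ ∈ Gs 3 D.σ (⊥ : Subgroup (GaloisField p (8 * f))ˣ) := by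
    intro i
    refine ⟨?_, ?_⟩
    · rw [Units.val_mul]
      refine InO.mul ?_ ?_
      · rw [hg]; exact AB_inO _ (D.hT i)
      · have h0 : InO (PowerSeries.map D.σ) (PowerSeries.X : PowerSeries (GaloisField p (8 * f)))
            (g i0 : Matrix (Fin (3 + 1)) (Fin (3 + 1))
              (PowerSeries (GaloisField p (8 * f)))) := by
          rw [hg]; exact AB_inO _ (D.hT i0)
        exact h0.inv (hg1 i0) (hg2 i0)
    · refine ⟨1, one_mem _, ?_⟩
      have h2 := congrArg Matrix.det (hg1 i0)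
      rw [Matrix.det_mul, Matrix.det_one] at h2
      have h3 : (g i : Matrix (Fin (3 + 1)) (Fin (3 + 1))
          (PowerSeries (GaloisField p (8 * f)))).det =
            (g i0 : Matrix (Fin (3 + 1)) (Fin (3 + 1))
              (PowerSeries (GaloisField p (8 * f)))).det := by
        rw [hg, hg, hdet, hdet, hDc', hDc']
      rw [Units.val_mul, Matrix.det_mul, h3, h2, Units.val_one, map_one]
  obtain ⟨w, hw⟩ : ∃ w : Fin s → Gs 3 D.σ (⊥ : Subgroup (GaloisField p (8 * f))ˣ),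
      ∀ i, (Gs 3 D.σ (⊥ : Subgroup (GaloisField p (8 * f))ˣ)).subtype (w i) =
        g i * (g i0)⁻¹ :=
    ⟨fun i => ⟨g i * (g i0)⁻¹, hmem i⟩, fun i => rfl⟩
  -- the graph
  obtain ⟨V, v1, Γ, v2, v3, v4, v5, v6⟩ := cos
    (G := Gs 3 D.σ (⊥ : Subgroup (GaloisField p (8 * f))ˣ) × H) (Ω := Ω × H)
    (fun x y => (act x.1 y.1, x.2 * y.2)) (fun x => by simp [a1])
    (fun x y z => by simp [a2, mul_assoc]) (fun i => (w i, h i)) (2 * m + 4 * t + hl) (by omega) (by
      intro L hL hne hlen x hx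
      have e1 : (L.map fun p => (w p.1, h p.1) * (w p.2, h p.2)⁻¹).prod.1 =
          (L.map fun p => w p.1 * (w p.2)⁻¹).prod := by
        have := map_list_prod (MonoidHom.fst
          (Gs 3 D.σ (⊥ : Subgroup (GaloisField p (8 * f))ˣ)) H)
          (L.map fun p => (w p.1, h p.1) * (w p.2, h p.2)⁻¹)
        rw [List.map_map] at this
        exact this
      have e2 : (L.map fun p => (w p.1, h p.1) * (w p.2, h p.2)⁻¹).prod.2 =
          (L.map fun p => h p.1 * (h p.2)⁻¹).prod := by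
        have := map_list_prod (MonoidHom.snd
          (Gs 3 D.σ (⊥ : Subgroup (GaloisField p (8 * f))ˣ)) H)
          (L.map fun p => (w p.1, h p.1) * (w p.2, h p.2)⁻¹)
        rw [List.map_map] at this
        exact this
      have hx1 := congrArg Prod.fst hx
      have hx2 := congrArg Prod.snd hx
      simp only at hx1 hx2
      rw [e1] at hx1
      rw [e2] at hx2
      have hx2' := mul_eq_left.1 hx2
      obtain ⟨N, hN, hz⟩ := a4 x.1 _ hx1
      have hMv : (((L.map fun p => w p.1 * (w p.2)⁻¹).prod :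
          Gs 3 D.σ (⊥ : Subgroup (GaloisField p (8 * f))ˣ)) :
          GL (Fin (3 + 1)) (PowerSeries (GaloisField p (8 * f)))) =
          (L.map fun p => g p.1 * (g p.2)⁻¹).prod := by
        have h1 : (((L.map fun p => w p.1 * (w p.2)⁻¹).prod :
          Gs 3 D.σ (⊥ : Subgroup (GaloisField p (8 * f))ˣ)) :
          GL (Fin (3 + 1)) (PowerSeries (GaloisField p (8 * f)))) =
          (Gs 3 D.σ (⊥ : Subgroup (GaloisField p (8 * f))ˣ)).subtype
            (L.map fun p => w p.1 * (w p.2)⁻¹).prod := rfl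
        rw [h1, map_list_prod, List.map_map]
        refine congrArg List.prod (List.map_congr_left fun p _ => ?_)
        rw [Function.comp_apply, map_mul, map_inv, hw, hw]
        group
      rw [hMv] at hN
      have := core ψ h2K D hDσ hDψ hDε c hDc' g hg L hL hne m (4 * t) hl ⟨2 * t, by omega⟩ hh N hN hz
        (b2 L hne hx2')
      omega)
  have hcΩ : Nat.card (Ω × H) ≤ 40 * q ^ (8 * m - 2 - 2 * ((m - 1) / 4) + 15 * t +
        hl * (if 4 ∣ m then 2 else 4)) := by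
    rw [Nat.card_prod]
    have c1 : bnd 3 D.σ (⊥ : Subgroup (GaloisField p (8 * f))ˣ) m ≤
        2 * q ^ 6 * q ^ (2 * (4 * (m - 1) - (m - 1) / 4)) := by
      refine (bnd4 q hq1 hK D.σ hσq m hm).trans (Nat.mul_le_mul_right _ ?_)
      have e1 : 4 * q ^ 4 ≤ q ^ 6 := by
        have : q ^ 6 = q ^ 2 * q ^ 4 := by ring
        rw [this]
        exact Nat.mul_le_mul_right _ (by nlinarith)
      have e2 : q ^ 2 ≤ q ^ 4 := Nat.pow_le_pow_right (by omega) (by norm_num)
      have e3 : 1 ≤ q ^ 4 := Nat.one_le_pow _ _ (by omega)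
      omega
    have c2 : (if 4 ∣ m then Nat.card {u : GaloisField p (8 * f) // D.σ u = -u}
        else Nat.card {u : GaloisField p (8 * f) // D.σ (D.σ u) = u}) ^ hl ≤
        q ^ (hl * (if 4 ∣ m then 2 else 4)) := by
      rw [mul_comm hl, pow_mul]
      apply Nat.pow_le_pow_left
      split_ifs
      · exact cneg q hq1 D.σ hσq
      · exact cfix q hq1 D.σ hσq
    calc Nat.card Ω * Nat.card H ≤ ((2 * q ^ 6 * q ^ (2 * (4 * (m - 1) - (m - 1) / 4))) *
          q ^ (hl * (if 4 ∣ m then 2 else 4))) * (20 * q ^ (15 * t)) :=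
          Nat.mul_le_mul (a3.trans (Nat.mul_le_mul c1 c2)) b1
      _ = 40 * q ^ (6 + 2 * (4 * (m - 1) - (m - 1) / 4) + 15 * t +
          hl * (if 4 ∣ m then 2 else 4)) := by
          rw [pow_add, pow_add, pow_add]; ring
      _ = _ := by
          congr 2
          omega
  refine ⟨s, V, v1, ?_, Γ, v2, by simpa using v3, v4, v5, by omega, ?_⟩
  · rw [← Fintype.card_pos_iff, v6]
    have : 0 < Nat.card (Ω × H) := Nat.card_pos
    omega
  · rw [v6]
    omega

end Pool.Agent.H2.EV
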