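import Pool.Agent.H2.L.R_seed8.H7R2.LG.GroupB

set_option autoImplicit false

/-! EV-GRP (helper51): the half congruence layer. -/

namespace Pool.Agent.H2.EV

open Matrix Polynomial Pool.Agent.H7R2.LG

namespace Grp

variable {K : Type} [Field K] {σ : K →+* K} {μ : Subgroup Kˣ}


theorem cc_mul {A B : Matrix (Fin (3 + 1)) (Fin (3 + 1)) (PowerSeries K)}
    (hB : InO (PowerSeries.map σ) (PowerSeries.X : PowerSeries K) B) :
    PowerSeries.constantCoeff ((A * B) 0 0) = PowerSeries.constantCoeff (A 0 0) * PowerSeries.constantCoeff (B 0 0) := by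
  rw [Matrix.mul_apply, map_sum, Finset.sum_eq_single 0]
  · rw [map_mul]
  · intro b _ hb
    obtain ⟨c, hc⟩ := inO_lower B_sX hB b 0 (Fin.pos_of_ne_zero hb)
    rw [hc, map_mul, map_mul, PowerSeries.constantCoeff_X]
    ring
  · simp

theorem cc_pm {m : ℕ} (hm : 1 ≤ m) : PowerSeries.constantCoeff ((Pm 3 (PowerSeries.X : PowerSeries K) ^ m) 0 0) = 0 := by
  obtain ⟨k, rfl⟩ : ∃ k, m = k + 1 := ⟨m - 1, by omega⟩
  have hI : InO (PowerSeries.map (RingHom.id K)) (PowerSeries.X : PowerSeries K) (Pm 3 (PowerSeries.X : PowerSeries K)) := pm_inO 3 _ _ B_sX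
  rw [pow_succ, cc_mul (σ := RingHom.id K) hI]
  have : (Pm 3 (PowerSeries.X : PowerSeries K)) 0 0 = 0 := by
    simp [Pm]
  rw [this, map_zero, mul_zero]

theorem cc_N {m : ℕ} (hm : 1 ≤ m) (A : Matrix (Fin (3 + 1)) (Fin (3 + 1)) (PowerSeries K)) :
    PowerSeries.constantCoeff ((A * Pm 3 (PowerSeries.X : PowerSeries K) ^ m) 0 0) = 0 := by
  have hI : InO (PowerSeries.map (RingHom.id K)) (PowerSeries.X : PowerSeries K) (Pm 3 (PowerSeries.X : PowerSeries K) ^ m) := B_inO_pow B_sX m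
  rw [cc_mul (σ := RingHom.id K) hI, cc_pm hm, mul_zero]

theorem cc_one_of {m : ℕ} (hm : 1 ≤ m) (M : Gs 3 σ μ)
    (A : Matrix (Fin (3 + 1)) (Fin (3 + 1)) (PowerSeries K)) (h : B_mat M - 1 = A * Pm 3 (PowerSeries.X : PowerSeries K) ^ m) :
    PowerSeries.constantCoeff (B_mat M 0 0) = 1 := by
  have h1 : B_mat M = 1 + A * Pm 3 (PowerSeries.X : PowerSeries K) ^ m := by rw [← h]; abel
  rw [h1, Matrix.add_apply, map_add, cc_N hm]
  simp

/-- the half layer -/
def BV (σ : K →+* K) (μ : Subgroup Kˣ) (m : ℕ) (hm : 1 ≤ m) : Subgroup (Gs 3 σ μ) where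
  carrier := {M | ∃ N, InO (PowerSeries.map σ) (PowerSeries.X : PowerSeries K) N ∧
    B_mat M - 1 = N * Pm 3 (PowerSeries.X : PowerSeries K) ^ m ∧ σ (σ (PowerSeries.constantCoeff (N 0 0))) = - PowerSeries.constantCoeff (N 0 0)}
  mul_mem' := by
    rintro M M' ⟨N, hN, hM, hy⟩ ⟨N', hN', hM', hy'⟩
    refine ⟨N + N' + N * (Pm 3 (PowerSeries.X : PowerSeries K) ^ m * N'),
      (hN.add hN').add (hN.mul ((B_inO_pow B_sX m).mul hN')), ?_, ?_⟩
    · rw [B_mat_mul]
      have h1 : B_mat M * B_mat M' - 1 = (B_mat M - 1) + (B_mat M' - 1) +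
        (B_mat M - 1) * (B_mat M' - 1) := by noncomm_ring
      rw [h1, hM, hM']
      noncomm_ring
    · have h1 : PowerSeries.constantCoeff ((N + N' + N * (Pm 3 (PowerSeries.X : PowerSeries K) ^ m * N')) 0 0) = PowerSeries.constantCoeff (N 0 0) + PowerSeries.constantCoeff (N' 0 0) := by
        rw [Matrix.add_apply, Matrix.add_apply, map_add, map_add,
          cc_mul (σ := σ) ((B_inO_pow B_sX m).mul hN'), cc_mul (σ := σ) hN', cc_pm hm]
        ring
      rw [h1, map_add, map_add, hy, hy']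
      ring
  one_mem' := by
    refine ⟨0, ?_, ?_, ?_⟩
    · have := (InO.one (s := PowerSeries.map σ) (x := (PowerSeries.X : PowerSeries K)) (d := 3)).sub InO.one
      rwa [sub_self] at this
    · rw [B_mat_one, sub_self, Matrix.zero_mul]
    · simp
  inv_mem' := by
    rintro M ⟨N, hN, hM, hy⟩
    have hinv : B_mat M⁻¹ - 1 = -(B_mat M⁻¹ * N) * Pm 3 (PowerSeries.X : PowerSeries K) ^ m := by
      have h1 : B_mat M⁻¹ - 1 = -(B_mat M⁻¹ * (B_mat M - 1)) := by
        rw [Matrix.mul_sub, B_inv_mul, Matrix.mul_one]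
        abel
      rw [h1, hM, Matrix.neg_mul, Matrix.mul_assoc]
    refine ⟨-(B_mat M⁻¹ * N), ((B_mat_inO _).mul hN).neg, hinv, ?_⟩
    have h2 : PowerSeries.constantCoeff ((-(B_mat M⁻¹ * N)) 0 0) = - PowerSeries.constantCoeff (N 0 0) := by
      rw [Matrix.neg_apply, map_neg, cc_mul (σ := σ) hN, cc_one_of hm _ _ hinv, one_mul]
    rw [h2, map_neg, map_neg, hy]

theorem BV_le (m : ℕ) (hm : 1 ≤ m) : BV σ μ m hm ≤ B_N 3 σ μ m := by
  rintro M ⟨N, hN, hM, -⟩
  exact ⟨N, hN, hM⟩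

theorem rel [Finite K] (hσ : ∀ a, σ^[4] a = a) (m : ℕ) (hm : 1 ≤ m) :
    (BV σ μ m hm).relIndex (B_N 3 σ μ m) ≤
      (if 4 ∣ m then Nat.card {u : K // σ u = -u} else Nat.card {u : K // σ (σ u) = u}) ∧
    (BV σ μ m hm).relIndex (B_N 3 σ μ m) ≠ 0 := by
  have hσ' : ∀ a, σ (σ (σ (σ a))) = a := hσ
  have key : ∀ a a' : B_N 3 σ μ m,
      PowerSeries.constantCoeff ((a.2.choose) 0 0) + σ (σ (PowerSeries.constantCoeff ((a.2.choose) 0 0))) =
        PowerSeries.constantCoeff ((a'.2.choose) 0 0) + σ (σ (PowerSeries.constantCoeff ((a'.2.choose) 0 0))) →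
      ((a : Gs 3 σ μ)⁻¹ * (a' : Gs 3 σ μ)) ∈ BV σ μ m hm := by
    intro a a' h
    have ha := a.2.choose_spec
    have ha' := a'.2.choose_spec
    set N := a.2.choose with hN
    set N' := a'.2.choose with hN'
    refine ⟨B_mat (a : Gs 3 σ μ)⁻¹ * (N' - N), (B_mat_inO _).mul (ha'.1.sub ha.1), ?_, ?_⟩
    · have h1 : B_mat ((a : Gs 3 σ μ)⁻¹ * (a' : Gs 3 σ μ)) - 1 =
          B_mat (a : Gs 3 σ μ)⁻¹ * (B_mat (a' : Gs 3 σ μ) - B_mat (a : Gs 3 σ μ)) := by
        rw [B_mat_mul, Matrix.mul_sub, B_inv_mul]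
      have h2 : B_mat (a' : Gs 3 σ μ) - B_mat (a : Gs 3 σ μ) = (N' - N) * Pm 3 (PowerSeries.X : PowerSeries K) ^ m := by
        rw [Matrix.sub_mul, ← ha.2, ← ha'.2]
        abel
      rw [h1, h2, Matrix.mul_assoc]
    · obtain ⟨N₂, -, hN₂⟩ := (B_N 3 σ μ m).inv_mem a.2
      have h3 : PowerSeries.constantCoeff ((B_mat (a : Gs 3 σ μ)⁻¹ * (N' - N)) 0 0) = PowerSeries.constantCoeff (N' 0 0) - PowerSeries.constantCoeff (N 0 0) := by
        rw [cc_mul (σ := σ) (ha'.1.sub ha.1), cc_one_of hm _ _ hN₂, one_mul, Matrix.sub_apply,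
          map_sub]
      rw [h3, map_sub, map_sub]
      linear_combination (-1) * h
  by_cases h4 : 4 ∣ m
  · rw [if_pos h4]
    obtain ⟨k, rfl⟩ := h4
    have hk : k ≠ 0 := by omega
    refine B_relIndex _ _ (T := {u : K // σ u = -u})
      (fun M => ⟨PowerSeries.constantCoeff ((M.2.choose) 0 0) + σ (σ (PowerSeries.constantCoeff ((M.2.choose) 0 0))), ?_⟩) ?_
    · have h1 := inO_trace σ PowerSeries.constantCoeff (B_sX (σ := σ)) PowerSeries.constantCoeff_X
        (B_ev (σ := σ)) M.2.choose_spec.1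
      rw [B_trace hk _ M.2.choose_spec.2] at h1
      simp only [Finset.sum_range_succ, Finset.sum_range_zero, Function.iterate_zero,
        Function.iterate_succ, Function.comp_apply, id_eq, zero_add] at h1
      rw [map_add]
      linear_combination (-1) * h1
    · intro a a' h
      rw [Subtype.mk.injEq] at h
      exact key a a' h
  · rw [if_neg h4]
    refine B_relIndex _ _ (T := {u : K // σ (σ u) = u})
      (fun M => ⟨PowerSeries.constantCoeff ((M.2.choose) 0 0) + σ (σ (PowerSeries.constantCoeff ((M.2.choose) 0 0))), ?_⟩) ?_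
    · rw [map_add, map_add, hσ']
      ring
    · intro a a' h
      rw [Subtype.mk.injEq] at h
      exact key a a' h

end Grp

open Grp in
theorem grp {K : Type} [Field K] [Finite K] (σ : K →+* K) (hσ : ∀ a, σ^[4] a = a)
    (μ : Subgroup Kˣ) (m : ℕ) (hm : 1 ≤ m) :
    ∃ (Ω : Type) (_ : Finite Ω) (_ : Nonempty Ω) (act : Ω → Gs 3 σ μ → Ω),
      (∀ x, act x 1 = x) ∧ (∀ x g h, act x (g * h) = act (act x g) h) ∧
      Nat.card Ω ≤ bnd 3 σ μ m *
        (if 4 ∣ m then Nat.card {u : K // σ u = -u} else Nat.card {u : K // σ (σ u) = u}) ∧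
      ∀ (x : Ω) (M : Gs 3 σ μ), act x M = x →
        ∃ N : Matrix (Fin (3 + 1)) (Fin (3 + 1)) (PowerSeries K),
          ((M : GL (Fin (3 + 1)) (PowerSeries K)) : Matrix (Fin (3 + 1)) (Fin (3 + 1)) (PowerSeries K)) - 1 =
            N * (Pm 3 (PowerSeries.X : PowerSeries K)) ^ m ∧
          ∃ z : K, σ z = -z ∧ PowerSeries.constantCoeff N.det = z ^ 2 := by
  obtain ⟨h1, h2⟩ := rel (μ := μ) hσ m hm
  obtain ⟨h3, h4⟩ := B_index (d := 3) (σ := σ) (μ := μ) m
  have h5 := Subgroup.relIndex_mul_index (BV_le (σ := σ) (μ := μ) m hm)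
  refine ⟨Gs 3 σ μ ⧸ BV σ μ m hm, ?_, inferInstance, fun x g => g⁻¹ • x, ?_, ?_, ?_, ?_⟩
  · apply Nat.finite_of_card_ne_zero
    show (BV σ μ m hm).index ≠ 0
    rw [← h5]
    exact mul_ne_zero h2 h4
  · intro x
    simp
  · intro x g h
    simp only [_root_.mul_inv_rev, mul_smul]
  · show (BV σ μ m hm).index ≤ _
    rw [← h5, mul_comm]
    exact Nat.mul_le_mul h3 h1
  · intro x M hx
    induction x using QuotientGroup.induction_on with
    | H g =>
      have h6 : g⁻¹ * M * g ∈ BV σ μ m hm := by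
        have h7 : ((M⁻¹ * g : Gs 3 σ μ) : Gs 3 σ μ ⧸ BV σ μ m hm) = (g : Gs 3 σ μ ⧸ BV σ μ m hm) :=
          hx
        rw [QuotientGroup.eq] at h7
        have h8 : (M⁻¹ * g)⁻¹ * g = g⁻¹ * M * g := by group
        rwa [h8] at h7
      obtain ⟨N', hN', hb, hy⟩ := h6
      obtain ⟨g'', hg'', hgg⟩ := inO_pow (B_sX (σ := σ)) (B_mat_inO g⁻¹) m
      refine ⟨B_mat g * N' * g'', ?_, PowerSeries.constantCoeff (N' 0 0) * σ (PowerSeries.constantCoeff (N' 0 0)), ?_, ?_⟩
      · show B_mat M - 1 = _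
        have h9 : B_mat M - 1 = B_mat g * (B_mat (g⁻¹ * M * g) - 1) * B_mat g⁻¹ := by
          rw [B_mat_mul, B_mat_mul, Matrix.mul_sub, Matrix.sub_mul, Matrix.mul_one, B_mul_inv]
          congr 1
          calc B_mat M = (B_mat g * B_mat g⁻¹) * B_mat M * (B_mat g * B_mat g⁻¹) := by
                rw [B_mul_inv, Matrix.one_mul, Matrix.mul_one]
            _ = _ := by simp only [Matrix.mul_assoc]
        rw [h9, hb]
        simp only [Matrix.mul_assoc]
        rw [hgg]
      · rw [map_mul, hy]; ring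
      · have hdet : (B_mat g).det * g''.det = 1 := by
          have e1 := congrArg Matrix.det hgg
          rw [Matrix.det_mul, Matrix.det_mul, Matrix.det_pow] at e1
          have e2 : (Pm 3 (PowerSeries.X : PowerSeries K)).det ^ m ≠ 0 := by
            rw [pm_det]
            apply pow_ne_zero
            apply mul_ne_zero
            · exact pow_ne_zero _ (neg_ne_zero.2 one_ne_zero)
            · exact PowerSeries.X_ne_zero
          have e3 : (B_mat g⁻¹).det = g''.det := by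
            rw [mul_comm] at e1
            exact mul_right_cancel₀ e2 e1
          rw [← e3, ← Matrix.det_mul, B_mul_inv, Matrix.det_one]
        have e4 : (B_mat g * N' * g'').det = N'.det := by
          rw [Matrix.det_mul, Matrix.det_mul]
          linear_combination N'.det * hdet
        rw [e4, inO_det σ PowerSeries.constantCoeff (B_sX (σ := σ)) PowerSeries.constantCoeff_X
          (B_ev (σ := σ)) hN']
        simp only [Finset.prod_range_succ, Finset.prod_range_zero, Function.iterate_zero,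
          Function.iterate_succ, Function.comp_apply, id_eq, one_mul]
        rw [hy, map_neg]
        ring

end Pool.Agent.H2.EV
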