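import Pool.Agent.H2.L.R_seed8.H7R2.LG.Core

set_option autoImplicit false

/-! The self-reciprocal polynomial of a reduced word (from the proof of `girthA`). -/

namespace Pool.Agent.H2.EV

open Matrix Polynomial Pool.Agent.H7R2.LG

theorem pex {K : Type} [Field K] {d : ℕ} {ι : Type} (D : Datum K d ι) (L : List (ι × ι))
    (hL : Red L) (hne : L ≠ []) :
    ∃ p : K[X], p ≠ 0 ∧
      (L.map fun p => (D.T p.2).det).prod ^ d * p =
        ((L.map fun p => (D.T p.2).det).prod • (1 : Matrix (Fin (d + 1)) (Fin (d + 1)) K[X]) -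
          (L.map fun p => D.T p.1 * (D.T p.2).adjugate).prod).det ∧
      D.ψ (L.map fun p => D.c p.2).prod * (-D.ε) ^ L.length * (-1) ^ (d + 1) /
            (L.map fun p => D.c p.1).prod ≠ 0 ∧
      Psi D.ψ p * (algebraMap K[X] (FractionRing K[X]) X) ^ L.length =
        algebraMap K[X] (FractionRing K[X])
          (C (D.ψ (L.map fun p => D.c p.2).prod * (-D.ε) ^ L.length * (-1) ^ (d + 1) /
            (L.map fun p => D.c p.1).prod) * p) ∧
      (L.map fun p => (D.T p.2).det).prod =
        C (L.map fun p => D.c p.2).prod * (1 - C D.ε * X) ^ L.length := by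
  set a : K[X] →+* FractionRing K[X] := algebraMap K[X] (FractionRing K[X]) with ha
  have hinj : Function.Injective a := IsFractionRing.injective K[X] (FractionRing K[X])
  set l : K[X] := 1 - C D.ε * X with hl
  have hl0 : l ≠ 0 := by
    intro h0
    have := congrArg (eval 0) h0
    simp [hl] at this
  have hxa : a X ≠ 0 := by
    intro h0
    exact X_ne_zero (hinj (by rw [h0, map_zero]))
  have hdet0 : ∀ i, (D.T i).det ≠ 0 := by
    intro i
    rw [D.hdet]
    exact mul_ne_zero (by simpa using D.hc i) hl0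
  have hfa : ∀ i, a (D.T i).det ≠ 0 := by
    intro i h0
    exact hdet0 i (hinj (by rw [h0, map_zero]))
  have hε0 : D.ε ≠ 0 := by
    intro h0
    have := D.hε
    rw [h0] at this
    simp at this
  have hPC : ∀ u : K, Psi D.ψ (C u) = a (C (D.ψ u)) := by
    intro u; simp [Psi, ha]
  have hPX : Psi D.ψ X = (a X)⁻¹ := by simp [Psi, ha]
  have hPl : Psi D.ψ l * a X = - a (C D.ε) * a l := by
    rw [hl, map_sub, map_one, map_mul, hPC, hPX, D.hψε, map_sub, map_mul, map_one]
    have : a (C D.ε) * a (C D.ε) = 1 := by rw [← map_mul, ← C_mul, D.hε]; simp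
    field_simp
    linear_combination (- a X) * this
  have haε : a (C D.ε) ≠ 0 := by
    intro h0
    have : C D.ε = 0 := hinj (by rw [h0, map_zero])
    exact hε0 (by simpa using this)
  have hal : a l ≠ 0 := fun h0 => hl0 (hinj (by rw [h0, map_zero]))
  have hPl0 : Psi D.ψ l ≠ 0 := by
    intro h0
    rw [h0, zero_mul] at hPl
    exact mul_ne_zero (neg_ne_zero.mpr haε) hal hPl.symm
  have hfP : ∀ i, Psi D.ψ (D.T i).det ≠ 0 := by
    intro i
    rw [D.hdet, map_mul, hPC]
    refine mul_ne_zero ?_ hPl0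
    intro h0
    have : C (D.ψ (D.c i)) = 0 := hinj (by rw [h0, map_zero])
    have h2 : D.ψ (D.c i) = 0 := by simpa using this
    exact D.hc i ((map_eq_zero D.ψ).mp h2)
  set Λ := A4_Lam D.T L with hΛ
  set Wt := A4_Wt D.T L with hWt
  set W := A4_W D.T a L with hW
  set W' := A4_W D.T (Psi D.ψ) L with hW'
  set cP := (L.map fun p => D.c p.1).prod with hcP
  set cQ := (L.map fun p => D.c p.2).prod with hcQ
  have hcP0 : cP ≠ 0 := by
    rw [hcP]; apply List.prod_ne_zero
    simp only [List.mem_map, not_exists, not_and]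
    intro p _ h0; exact D.hc _ h0
  have hcQ0 : cQ ≠ 0 := by
    rw [hcQ]; apply List.prod_ne_zero
    simp only [List.mem_map, not_exists, not_and]
    intro p _ h0; exact D.hc _ h0
  have hΛe : Λ = C cQ * l ^ L.length := A4_Lam_eq D.T D.c l D.hdet L
  -- the polynomial p
  obtain ⟨p, hp⟩ := block (R := K[X]) (F := FractionRing K[X])
    (L.map fun p => (D.T p.1, D.T p.2))
    (by
      intro q hq
      simp only [List.mem_map] at hq
      obtain ⟨p, _, rfl⟩ := hq
      exact hfa p.2) (Fin (d + 1)) 1 (-1) 1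
  have hp' : a p = a Λ * (1 - W).det := by
    rw [ha, hp]
    congr 1
    · simp [hΛ, A4_Lam, List.map_map, Function.comp_def]
    · congr 1
      have e1 : (1 : Matrix (Fin (d + 1)) (Fin (d + 1)) K[X]).map
          (algebraMap K[X] (FractionRing K[X])) = 1 :=
        Matrix.map_one _ (map_zero _) (map_one _)
      have e2 : (-1 : Matrix (Fin (d + 1)) (Fin (d + 1)) K[X]).map
          (algebraMap K[X] (FractionRing K[X])) = -1 := by
        ext i j
        simp only [Matrix.map_apply, Matrix.neg_apply, Matrix.one_apply, map_neg]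
        split_ifs <;> simp
      rw [e1, e2]
      simp [hW, A4_W, List.map_map, Function.comp_def, sub_eq_add_neg, ha]
  have hpΛ : Λ ^ d * p = (Λ • (1 : Matrix (Fin (d + 1)) (Fin (d + 1)) K[X]) - Wt).det := by
    apply hinj
    rw [A4_det_sub D.T a hfa L, map_mul, map_pow, hp', pow_succ]
    ring
  have hΛ0 : Λ ≠ 0 := by
    rw [hΛe]; exact mul_ne_zero (by simpa using hcQ0) (pow_ne_zero _ hl0)
  have hPΛ : Psi D.ψ Λ ≠ 0 := by
    rw [hΛe, map_mul, map_pow, hPC]
    refine mul_ne_zero ?_ (pow_ne_zero _ hPl0)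
    intro h0
    have : C (D.ψ cQ) = 0 := hinj (by rw [h0, map_zero])
    exact hcQ0 ((map_eq_zero D.ψ).mp (by simpa using this))
  have hPp : Psi D.ψ p = Psi D.ψ Λ * (1 - W').det := by
    have h1 := congrArg (Psi D.ψ) hpΛ
    rw [A4_det_sub D.T (Psi D.ψ) hfP L, map_mul, map_pow, pow_succ, mul_assoc] at h1
    exact mul_left_cancel₀ (pow_ne_zero _ hPΛ) h1
  have hJ : (D.J.map a).det ≠ 0 := by
    rw [← RingHom.mapMatrix_apply, ← RingHom.map_det]
    intro h0; exact D.hJ (hinj (by rw [h0, map_zero]))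
  have hun := A4_unit D.T a (Psi D.ψ) hfa hfP (D.J.map a) D.Θ D.hΘ L
  have hud := A4_unit_det _ _ _ hJ hun
  rw [← hW, ← hW'] at hud
  have hdW : a (C cQ) * W.det = a (C cP) := A4_detW D.T a D.c l D.hdet hfa L
  -- reciprocity
  have hrec : Psi D.ψ p * (a X) ^ L.length =
      a (C (D.ψ cQ * (-D.ε) ^ L.length * (-1) ^ (d + 1) / cP) * p) := by
    have haP : a (C cP) ≠ 0 := by
      intro h0
      exact hcP0 (by simpa using (hinj (by rw [h0, map_zero]) : C cP = 0))
    have haQ : a (C cQ) ≠ 0 := by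
      intro h0
      exact hcQ0 (by simpa using (hinj (by rw [h0, map_zero]) : C cQ = 0))
    have hdW0 : W.det ≠ 0 := by
      intro h0; rw [h0, mul_zero] at hdW; exact haP hdW.symm
    have e1 : Psi D.ψ Λ * (a X) ^ L.length =
        a (C (D.ψ cQ)) * (- a (C D.ε)) ^ L.length * a l ^ L.length := by
      rw [hΛe, map_mul, map_pow, hPC, mul_assoc, ← mul_pow, hPl, mul_pow]; ring
    have e2 : a (C (D.ψ cQ * (-D.ε) ^ L.length * (-1) ^ (d + 1) / cP)) * a (C cP) =
        a (C (D.ψ cQ)) * (- a (C D.ε)) ^ L.length * (-1) ^ (d + 1) := by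
      rw [← map_mul, ← C_mul, div_mul_cancel₀ _ hcP0]
      simp [map_mul, map_pow, map_neg]
    have e3 : a Λ = a (C cQ) * a l ^ L.length := by rw [hΛe, map_mul, map_pow]
    apply mul_right_cancel₀ haP
    calc Psi D.ψ p * (a X) ^ L.length * a (C cP)
        = (Psi D.ψ Λ * (a X) ^ L.length) * ((1 - W').det * W.det) * a (C cQ) := by
          rw [hPp, ← hdW]; ring
      _ = (a (C (D.ψ cQ)) * (- a (C D.ε)) ^ L.length * a l ^ L.length) *
          ((-1) ^ (d + 1) * (1 - W).det) * a (C cQ) := by rw [e1, hud]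
      _ = (a (C (D.ψ cQ)) * (- a (C D.ε)) ^ L.length * (-1) ^ (d + 1)) *
          (a (C cQ) * a l ^ L.length * (1 - W).det) := by ring
      _ = (a (C (D.ψ cQ * (-D.ε) ^ L.length * (-1) ^ (d + 1) / cP)) * a (C cP)) * a p := by
          rw [e2, hp', e3]
      _ = _ := by rw [map_mul]; ring
  -- p ≠ 0
  have hp0 : p ≠ 0 := by
    rintro rfl
    rw [mul_zero] at hpΛ
    have hO : InO (mapRingHom D.σ) X
        (Λ • (1 : Matrix (Fin (d + 1)) (Fin (d + 1)) K[X]) - Wt) := by
      apply InO.sub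
      · apply A4_inO_smul
        rw [hΛ, A4_Lam, map_list_prod, List.map_map]
        congr 1
        apply List.map_congr_left
        intro p _
        exact A4_det_fix X_ne_zero (D.hT p.2)
      · rw [hWt, A4_Wt]
        apply A4_inO_prod
        intro M hM
        simp only [List.mem_map] at hM
        obtain ⟨p, _, rfl⟩ := hM
        exact (D.hT p.1).mul (A4_inO_adj X_ne_zero (D.hT p.2) (hdet0 p.2))
    have h0 := inO_division D.σ hO hpΛ.symm
    have h1 : Wt = Λ • (1 : Matrix (Fin (d + 1)) (Fin (d + 1)) K[X]) := (sub_eq_zero.mp h0).symm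
    apply D.hne L hL hne
    have h2 : (L.map fun p => (D.T p.1 * (D.T p.2).adjugate).map (eval D.ε)).prod =
        (evalRingHom D.ε).mapMatrix Wt := by
      rw [hWt, A4_Wt, map_list_prod, List.map_map]
      rfl
    rw [h2, h1]
    have h3 : eval D.ε Λ = 0 := by
      rw [hΛe, eval_mul, eval_pow, hl]
      have : eval D.ε (1 - C D.ε * X) = 0 := by simp [D.hε]
      rw [this, zero_pow, mul_zero]
      exact fun h => hne (List.length_eq_zero_iff.mp h)
    ext i j
    simp only [RingHom.mapMatrix_apply, Matrix.map_apply, Matrix.smul_apply, smul_eq_mul,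
      Polynomial.coe_evalRingHom, eval_mul, h3, zero_mul, Matrix.zero_apply]
  have hκ0 : D.ψ cQ * (-D.ε) ^ L.length * (-1) ^ (d + 1) / cP ≠ 0 := by
    refine div_ne_zero (mul_ne_zero (mul_ne_zero ?_ (pow_ne_zero _ (neg_ne_zero.mpr hε0)))
      (pow_ne_zero _ (by simp))) hcP0
    intro h0; exact hcQ0 ((map_eq_zero D.ψ).mp h0)
  exact ⟨p, hp0, hpΛ, hκ0, hrec, hΛe⟩

end Pool.Agent.H2.EV
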