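import Pool.Agent.H2.L.R_seed8.H7R2.LG.Turan

set_option autoImplicit false

/-! EV-TUR: the passage to all `n`, general exponents. -/

namespace Pool.Agent.H2.EV

open Pool.Agent.H7R2.LG

theorem tur (s D g C₁ C₂ : ℕ) (hs : 1 ≤ s) (hD : s ≤ D) (hC₁ : 1 ≤ C₁) (hC₂ : 1 ≤ C₂)
    (h : ∀ a : ℕ, 2 ≤ a → ∃ (δ : ℕ) (V : Type) (_ : Fintype V) (_ : Nonempty V)
      (Γ : SimpleGraph V) (_ : DecidableRel Γ.Adj),
      Γ.IsRegularOfDegree δ ∧ ((g : ℕ) : ℕ∞) ≤ Γ.egirth ∧ Γ.Colorable 2 ∧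
      (3 ^ a) ^ s ≤ C₁ * δ ∧ Fintype.card V ≤ C₂ * (3 ^ a) ^ D) :
    ∃ c : ℝ, 0 < c ∧ ∀ᶠ n : ℕ in Filter.atTop, ∃ Γ : SimpleGraph (Fin n),
      ((g : ℕ) : ℕ∞) ≤ Γ.egirth ∧
      c * (n : ℝ) ^ (1 + (s : ℝ) / (D : ℝ)) ≤ (Γ.edgeSet.ncard : ℝ) := by
  have hD0 : 1 ≤ D := hs.trans hD
  have hDpos : (0 : ℝ) < D := by exact_mod_cast (by omega : 0 < D)
  refine ⟨1 / (4 * C₁ * C₂ * 3 ^ s), by positivity, ?_⟩
  set b : ℕ := 3 ^ D with hb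
  have hb1 : 1 < b := by
    rw [hb]; exact Nat.one_lt_pow (by omega) (by norm_num)
  have hb0 : 0 < b := by omega
  refine Filter.eventually_atTop.2 ⟨C₂ * b ^ 2, fun n hn => ?_⟩
  have hn4 : b ^ 2 ≤ n / C₂ := by
    rw [Nat.le_div_iff_mul_le (by omega), mul_comm]; exact hn
  have hn0 : n / C₂ ≠ 0 := by
    have : 0 < b ^ 2 := by positivity
    omega
  set a : ℕ := Nat.log b (n / C₂) with ha
  have ha1 : 2 ≤ a := (Nat.le_log_iff_pow_le hb1 hn0).2 hn4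
  have hle : b ^ a ≤ n / C₂ := Nat.pow_log_le_self b hn0
  have hlt : n / C₂ < b ^ (a + 1) := Nat.lt_pow_succ_log_self hb1 _
  set q : ℕ := 3 ^ a with hq
  have hqb : q ^ D = b ^ a := by rw [hq, hb, ← pow_mul, ← pow_mul, mul_comm]
  obtain ⟨δ, V, _, _, Γ₀, _, hreg, hgirth, hcol, hdeg, hcard⟩ := h a ha1
  set v := Fintype.card V with hv
  have hv0 : 0 < v := Fintype.card_pos
  have hvn : v ≤ n := by
    refine hcard.trans ?_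
    rw [← hq, hqb]
    calc C₂ * b ^ a ≤ C₂ * (n / C₂) := Nat.mul_le_mul_left _ hle
      _ ≤ n := Nat.mul_div_le n C₂
  set t := n / v with ht
  have ht1 : 1 ≤ t := Nat.div_pos hvn hv0
  have htn : t * v ≤ n := Nat.div_mul_le_self n v
  have htn2 : n < (t + 1) * v := by
    rw [ht]; exact Nat.lt_mul_of_div_lt (Nat.lt_succ_self _) hv0
  obtain ⟨Γ, hdec, g1, g2, g3⟩ := E2_copies Γ₀ δ g n v t hreg hgirth hcol rfl hv0 htn
  refine ⟨Γ, g1, ?_⟩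
  have hE : n * q ^ s ≤ 4 * C₁ * Γ.edgeFinset.card := by
    have h1 : n ≤ 2 * (t * v) := by nlinarith
    calc n * q ^ s ≤ (2 * (t * v)) * (C₁ * δ) := Nat.mul_le_mul h1 hdeg
      _ = 2 * C₁ * (t * v * δ) := by ring
      _ ≤ 2 * C₁ * (2 * Γ.edgeFinset.card) := Nat.mul_le_mul_left _ g3
      _ = _ := by ring
  have hEr : (n : ℝ) * (q : ℝ) ^ s ≤ 4 * C₁ * (Γ.edgeFinset.card : ℝ) := by exact_mod_cast hE
  have hncard : (Γ.edgeSet.ncard : ℝ) = (Γ.edgeFinset.card : ℝ) := by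
    rw [Set.ncard_eq_toFinset_card']
    rfl
  -- upper bound for n
  have hnq : (n : ℝ) ≤ C₂ * (3 * (q : ℝ)) ^ D := by
    have h1 : n < C₂ * b ^ (a + 1) := by
      have := (Nat.div_lt_iff_lt_mul (by omega : 0 < C₂)).1 hlt
      rwa [mul_comm] at this
    have h2 : b ^ (a + 1) = (3 * q) ^ D := by
      rw [pow_succ, ← hqb, mul_pow, mul_comm]
    rw [h2] at h1
    exact_mod_cast h1.le
  have hn0' : (0 : ℝ) ≤ n := Nat.cast_nonneg n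
  have hnpos : (0 : ℝ) < n := by
    have : 0 < n := lt_of_lt_of_le hv0 hvn
    exact_mod_cast this
  have hC₂r : (1 : ℝ) ≤ C₂ := by exact_mod_cast hC₂
  have hC₁r : (1 : ℝ) ≤ C₁ := by exact_mod_cast hC₁
  have hpow : (n : ℝ) ^ ((s : ℝ) / D) ≤ C₂ * 3 ^ s * (q : ℝ) ^ s := by
    have h1 : (n : ℝ) ^ ((s : ℝ) / D) ≤ (C₂ * (3 * (q : ℝ)) ^ D) ^ ((s : ℝ) / D) :=
      Real.rpow_le_rpow hn0' hnq (by positivity)
    rw [Real.mul_rpow (by linarith) (by positivity)] at h1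
    have h2 : ((3 * (q : ℝ)) ^ D) ^ ((s : ℝ) / D) = (3 * (q : ℝ)) ^ s := by
      rw [← Real.rpow_natCast (3 * (q : ℝ)) D, ← Real.rpow_mul (by positivity)]
      have h3 : (D : ℝ) * (s / D) = ((s : ℕ) : ℝ) := by
        field_simp
      rw [h3, Real.rpow_natCast]
    have h4 : (C₂ : ℝ) ^ ((s : ℝ) / D) ≤ C₂ := by
      calc (C₂ : ℝ) ^ ((s : ℝ) / D) ≤ (C₂ : ℝ) ^ (1 : ℝ) := by
            apply Real.rpow_le_rpow_of_exponent_le hC₂r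
            rw [div_le_one hDpos]
            exact_mod_cast hD
        _ = C₂ := Real.rpow_one _
    rw [h2] at h1
    calc (n : ℝ) ^ ((s : ℝ) / D) ≤ (C₂ : ℝ) ^ ((s : ℝ) / D) * (3 * (q : ℝ)) ^ s := h1
      _ ≤ C₂ * (3 * (q : ℝ)) ^ s := by gcongr
      _ = C₂ * 3 ^ s * (q : ℝ) ^ s := by rw [mul_pow]; ring
  rw [Real.rpow_add hnpos, Real.rpow_one, hncard]
  have hpos : (0 : ℝ) < 4 * C₁ * C₂ * 3 ^ s := by positivity
  rw [one_div, ← div_eq_inv_mul, div_le_iff₀ hpos]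
  calc (n : ℝ) * (n : ℝ) ^ ((s : ℝ) / D) ≤ (n : ℝ) * (C₂ * 3 ^ s * (q : ℝ) ^ s) := by gcongr
    _ = (C₂ * 3 ^ s) * ((n : ℝ) * (q : ℝ) ^ s) := by ring
    _ ≤ (C₂ * 3 ^ s) * (4 * C₁ * (Γ.edgeFinset.card : ℝ)) := by gcongr
    _ = _ := by ring

end Pool.Agent.H2.EV
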