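import Pool.Agent.H2.EV.Pex
import Pool.Agent.H2.EV.Rec

set_option autoImplicit false

/-! The tower of `U(3)` graphs in odd characteristic: the girth is at least `4m + 2`. -/

namespace Pool.Agent.H2.EV

open Matrix Polynomial Pool.Agent.H7R2.LG

open D3 in
theorem datum3' {K : Type} [Field K] (σ : K →+* K) (hσ : ∀ a, σ (σ (σ a)) = a) {ι : Type}
    (ξ : ι → K) (h0 : ∀ i, ξ i ≠ 0)
    (hiso : ∀ i, ξ i ^ 2 + σ (ξ i) ^ 2 + σ (σ (ξ i)) ^ 2 = 0)
    (hind : ∀ i j, i ≠ j → ξ i * σ (ξ j) ≠ ξ j * σ (ξ i)) :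
    ∃ D : Datum K 2 ι, D.σ = σ ∧ (∀ i, D.c i = 1) ∧ D.ψ = RingHom.id K := by
  have h1 : ∀ i, σ (ξ i) ≠ 0 := fun i => (map_ne_zero σ).2 (h0 i)
  have h2 : ∀ i, σ (σ (ξ i)) ≠ 0 := fun i => (map_ne_zero σ).2 (h1 i)
  have hinj : Function.Injective σ := σ.injective
  -- non-vanishing of `x₁ y₀ + x₀ y₁`
  have hplus : ∀ i j, i ≠ j → σ (ξ i) * ξ j + ξ i * σ (ξ j) ≠ 0 := by
    intro i j hij h
    have e0 : σ (ξ i) * ξ j = - (ξ i * σ (ξ j)) := by linear_combination h
    have e1 : σ (σ (ξ i)) * σ (ξ j) = - (σ (ξ i) * σ (σ (ξ j))) := by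
      have := congrArg σ e0
      simpa using this
    have e2 : ξ i * σ (σ (ξ j)) = - (σ (σ (ξ i)) * ξ j) := by
      have := congrArg σ e1
      simpa [hσ] using this
    -- z = x/y: z1 = -z0, z2 = -z1, z0 = -z2, so z0 = -z0
    have e3 : ξ i * σ (ξ j) * (ξ j * σ (σ (ξ j))) = -(ξ i * σ (ξ j) * (ξ j * σ (σ (ξ j)))) := by
      have a1 : ξ i * σ (σ (ξ j)) * σ (ξ j) * ξ j = - (σ (σ (ξ i)) * ξ j) * σ (ξ j) * ξ j := by
        rw [e2]
      have a2 : σ (σ (ξ i)) * ξ j * σ (ξ j) * ξ j = - (σ (ξ i) * σ (σ (ξ j))) * ξ j * ξ j := by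
        linear_combination (ξ j * ξ j) * e1
      have a3 : σ (ξ i) * σ (σ (ξ j)) * ξ j * ξ j = - (ξ i * σ (ξ j)) * σ (σ (ξ j)) * ξ j := by
        linear_combination (σ (σ (ξ j)) * ξ j) * e0
      linear_combination a1 - a2 + a3
    have hne : ξ i * σ (ξ j) * (ξ j * σ (σ (ξ j))) ≠ 0 :=
      mul_ne_zero (mul_ne_zero (h0 i) (h1 j)) (mul_ne_zero (h0 j) (h2 j))
    have h2' : (2 : K) = 0 := by
      have : (2 : K) * (ξ i * σ (ξ j) * (ξ j * σ (σ (ξ j)))) = 0 := by
        linear_combination e3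
      exact (mul_eq_zero.1 this).resolve_right hne
    apply hind i j hij
    linear_combination -e0 + (ξ i * σ (ξ j)) * h2'
  have hker : ∀ i j, i ≠ j →
      (σ (ξ i) ^ 2 * ξ j ^ 2 - ξ i ^ 2 * σ (ξ j) ^ 2) /
        (ξ i * σ (ξ i) * σ (σ (ξ i)) * (ξ j * σ (ξ j) * σ (σ (ξ j)))) ≠ 0 := by
    intro i j hij
    refine div_ne_zero ?_ (mul_ne_zero (mul_ne_zero (mul_ne_zero (h0 i) (h1 i)) (h2 i))
      (mul_ne_zero (mul_ne_zero (h0 j) (h1 j)) (h2 j)))
    have : σ (ξ i) ^ 2 * ξ j ^ 2 - ξ i ^ 2 * σ (ξ j) ^ 2 =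
      (σ (ξ i) * ξ j - ξ i * σ (ξ j)) * (σ (ξ i) * ξ j + ξ i * σ (ξ j)) := by ring
    rw [this]
    refine mul_ne_zero ?_ (hplus i j hij)
    intro h
    apply hind i j hij
    linear_combination -h
  have hdot : ∀ i j, i ≠ j → av σ (ξ i) ⬝ᵥ av σ (ξ j) ≠ 0 := by
    intro i j hij h
    have h' : σ (σ (ξ i)) * σ (σ (ξ j)) + ξ i * ξ j + σ (ξ i) * σ (ξ j) = 0 := by
      simpa [av, dotProduct, Fin.sum_univ_three] using h
    have hi := hiso i
    have hj := hiso j
    have key : (σ (ξ i) * σ (σ (ξ j)) - σ (σ (ξ i)) * σ (ξ j)) ^ 2 = 0 := by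
      have e : (ξ i * ξ j) ^ 2 =
          (σ (σ (ξ i)) * σ (σ (ξ j)) + σ (ξ i) * σ (ξ j)) ^ 2 := by
        have : ξ i * ξ j = -(σ (σ (ξ i)) * σ (σ (ξ j)) + σ (ξ i) * σ (ξ j)) := by
          linear_combination h'
        rw [this]; ring
      have e' : (ξ i * ξ j) ^ 2 =
          (σ (ξ i) ^ 2 + σ (σ (ξ i)) ^ 2) * (σ (ξ j) ^ 2 + σ (σ (ξ j)) ^ 2) := by
        have a : ξ i ^ 2 = -(σ (ξ i) ^ 2 + σ (σ (ξ i)) ^ 2) := by linear_combination hi
        have b : ξ j ^ 2 = -(σ (ξ j) ^ 2 + σ (σ (ξ j)) ^ 2) := by linear_combination hj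
        rw [mul_pow, a, b]; ring
      linear_combination e - e'
    have key2 : σ (ξ i) * σ (σ (ξ j)) - σ (σ (ξ i)) * σ (ξ j) = 0 := by
      exact pow_eq_zero_iff (two_ne_zero) |>.1 key
    have key3 : σ (ξ i * σ (ξ j) - σ (ξ i) * ξ j) = 0 := by
      rw [map_sub, map_mul, map_mul]; exact key2
    have key4 := (map_eq_zero σ).1 key3
    apply hind i j hij
    linear_combination key4
  refine ⟨{
    σ := σ
    hσ := fun a => by simpa using hσ a
    ψ := RingHom.id K
    T := fun i => T3 σ (ξ i)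
    hT := ?_
    c := fun _ => 1
    hc := fun _ => one_ne_zero
    ε := -1
    hε := by ring
    hψε := rfl
    hdet := ?_
    J := 1
    hJ := by simp
    Θ := !![-1, 1, (algebraMap K[X] (FractionRing K[X]) X)⁻¹; 1, -1, 1;
      algebraMap K[X] (FractionRing K[X]) X, 1, -1]
    hΘ := ?_
    hne := ?_ }, rfl, fun _ => rfl, rfl⟩
  · intro i
    unfold InO
    ext a b : 2
    fin_cases a <;> fin_cases b <;>
      simp [Pm, T3, Matrix.mul_apply, Fin.sum_univ_three, hσ]
  · intro i
    rw [T3, Matrix.det_fin_three]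
    have a0 := h0 i
    have a1 := h1 i
    have a2 := h2 i
    have b1 : σ (ξ i) / ξ i * (σ (σ (ξ i)) / σ (ξ i)) * (ξ i / σ (σ (ξ i))) = 1 := by
      field_simp
    have b2 : ξ i / σ (ξ i) * (σ (ξ i) / σ (σ (ξ i))) * (σ (σ (ξ i)) / ξ i) = 1 := by
      field_simp
    have c1 := congrArg (C : K → K[X]) b1
    have c2 := congrArg (C : K → K[X]) b2
    simp only [C_mul, C_1] at c1 c2
    simp
    linear_combination c1 + X * c2
  · intro i
    have a0 := h0 i
    have a1 := h1 i
    have a2 := h2 i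
    have hX : (algebraMap K[X] (FractionRing K[X]) X) ≠ 0 := by
      simp
    have hC : ∀ z : K, z ≠ 0 → algebraMap K[X] (FractionRing K[X]) (C z) ≠ 0 := by
      intro z hz
      simpa using hz
    have hdiv : ∀ a b : K, algebraMap K[X] (FractionRing K[X]) (C (a / b)) =
        algebraMap K[X] (FractionRing K[X]) (C a) / algebraMap K[X] (FractionRing K[X]) (C b) := by
      intro a b
      exact map_div₀ ((algebraMap K[X] (FractionRing K[X])).comp C) a b
    have d0 := hC _ a0
    have d1 := hC _ a1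
    have d2 := hC _ a2
    have hi := congrArg (fun z => algebraMap K[X] (FractionRing K[X]) (C z)) (hiso i)
    simp only [map_add, map_pow, map_zero] at hi
    ext a b
    fin_cases a <;> fin_cases b <;>
      simp [T3, Psi, Matrix.mul_apply, Fin.sum_univ_three, hdiv]
    all_goals
      generalize algebraMap K[X] (FractionRing K[X]) (C (ξ i)) = u0 at *
      generalize algebraMap K[X] (FractionRing K[X]) (C (σ (ξ i))) = u1 at *
      generalize algebraMap K[X] (FractionRing K[X]) (C (σ (σ (ξ i)))) = u2 at *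
      generalize algebraMap K[X] (FractionRing K[X]) X = Z at *
      field_simp
      try first
        | linear_combination hi
        | ring1
  · intro L hL hne
    obtain ⟨s, hs, hs'⟩ := prod_rankone (fun i => av σ (ξ i))
      (fun p => (T3 σ (ξ p.1) * (T3 σ (ξ p.2)).adjugate).map (eval (-1)))
      (fun p => (σ (ξ p.1) ^ 2 * ξ p.2 ^ 2 - ξ p.1 ^ 2 * σ (ξ p.2) ^ 2) /
        (ξ p.1 * σ (ξ p.1) * σ (σ (ξ p.1)) * (ξ p.2 * σ (ξ p.2) * σ (σ (ξ p.2)))))
      (fun p => letter σ _ _ (h0 _) (h0 _) (hiso _) (hiso _))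
      (fun p hp => hker _ _ hp) hdot L hne hL
    rw [hs']
    intro h
    have h00 := congrFun (congrFun h 0) 0
    simp [vecMulVec_apply, av, hs, h2] at h00



theorem graphD2 {K : Type} [Field K] [Finite K] {d : ℕ} {ι : Type} [Fintype ι] [DecidableEq ι]
    (D : Datum K d ι) (μ : Subgroup Kˣ) (hμ : ∀ i j, ∃ u ∈ μ, D.c i = (u : K) * D.c j)
    (m R : ℕ) (hR : 2 ≤ R)
    (hyp : ∀ L : List (ι × ι), Red L → L ≠ [] → ∀ p : K[X], p ≠ 0 → (X : K[X]) ^ m ∣ p →
      D.ψ (L.map fun p => D.c p.2).prod * (-D.ε) ^ L.length * (-1) ^ (d + 1) /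
            (L.map fun p => D.c p.1).prod ≠ 0 →
      Psi D.ψ p * (algebraMap K[X] (FractionRing K[X]) X) ^ L.length =
        algebraMap K[X] (FractionRing K[X])
          (C (D.ψ (L.map fun p => D.c p.2).prod * (-D.ε) ^ L.length * (-1) ^ (d + 1) /
            (L.map fun p => D.c p.1).prod) * p) → R ≤ L.length) :
    ∃ (V : Type) (_ : Fintype V) (_ : Nonempty V) (Γ : SimpleGraph V) (_ : DecidableRel Γ.Adj),
      Γ.IsRegularOfDegree (Fintype.card ι) ∧ ((2 * R : ℕ) : ℕ∞) ≤ Γ.egirth ∧ Γ.Colorable 2 ∧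
      Fintype.card V ≤ 2 * bnd d D.σ μ m := by
  obtain ⟨G, hG, hGf, f, hcard, hf⟩ := grpB d D.σ μ m
  -- the letters
  obtain ⟨t, ht⟩ : ∃ t : ι → G, ∀ L : List (ι × ι), Red L → L ≠ [] → L.length < R →
      (L.map fun p => t p.1 * (t p.2)⁻¹).prod ≠ 1 := by
    rcases isEmpty_or_nonempty ι with hι | ⟨⟨i0⟩⟩
    · refine ⟨fun i => (hι.false i).elim, fun L _ hne _ => ?_⟩
      obtain ⟨p, hp⟩ := List.exists_mem_of_ne_nil L hne
      exact (hι.false p.1).elim
    · have hdet : ∀ i, ((D.T i).map (AB_cs K)).det = AB_cs K (C (D.c i) * (1 - C D.ε * X)) := by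
        intro i
        rw [← D.hdet i, RingHom.map_det, RingHom.mapMatrix_apply]
      have hu : ∀ i, IsUnit ((D.T i).map (AB_cs K)).det := fun i => by
        rw [hdet]; exact AB_isUnit _ _ (D.hc i)
      obtain ⟨g, hg⟩ : ∃ g : ι → GL (Fin (d + 1)) (PowerSeries K),
          ∀ i, (g i : Matrix (Fin (d + 1)) (Fin (d + 1)) (PowerSeries K)) =
            (D.T i).map (AB_cs K) :=
        ⟨fun i => Matrix.GeneralLinearGroup.mk'' _ (hu i), fun i => rfl⟩
      have hg1 : ∀ i, (g i : Matrix (Fin (d + 1)) (Fin (d + 1)) (PowerSeries K)) *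
          ((g i)⁻¹ : GL (Fin (d + 1)) (PowerSeries K)) = 1 := fun i => by
        rw [← Units.val_mul]; simp
      have hg2 : ∀ i, (((g i)⁻¹ : GL (Fin (d + 1)) (PowerSeries K)) :
          Matrix (Fin (d + 1)) (Fin (d + 1)) (PowerSeries K)) * g i = 1 := fun i => by
        rw [← Units.val_mul]; simp
      have hmem : ∀ i, g i * (g i0)⁻¹ ∈ Gs d D.σ μ := by
        intro i
        refine ⟨?_, ?_⟩
        · rw [Units.val_mul]
          refine InO.mul ?_ ?_
          · rw [hg]; exact AB_inO _ (D.hT i)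
          · have h0 : InO (PowerSeries.map D.σ) (PowerSeries.X : PowerSeries K)
                (g i0 : Matrix (Fin (d + 1)) (Fin (d + 1)) (PowerSeries K)) := by
              rw [hg]; exact AB_inO _ (D.hT i0)
            exact h0.inv (hg1 i0) (hg2 i0)
        · obtain ⟨u, hu1, hu2⟩ := hμ i i0
          refine ⟨u, hu1, ?_⟩
          have h2 := congrArg Matrix.det (hg1 i0)
          rw [Matrix.det_mul, Matrix.det_one] at h2
          have h3 : (g i : Matrix (Fin (d + 1)) (Fin (d + 1)) (PowerSeries K)).det =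
              PowerSeries.C (u : K) *
                (g i0 : Matrix (Fin (d + 1)) (Fin (d + 1)) (PowerSeries K)).det := by
            rw [hg, hg, hdet, hdet, hu2, AB_cs_apply, AB_cs_apply]
            push_cast
            rw [map_mul]
            ring
          rw [Units.val_mul, Matrix.det_mul, h3, mul_assoc, h2, mul_one]
      obtain ⟨s, hs⟩ : ∃ s : ι → Gs d D.σ μ, ∀ i, (Gs d D.σ μ).subtype (s i) = g i * (g i0)⁻¹ :=
        ⟨fun i => ⟨g i * (g i0)⁻¹, hmem i⟩, fun i => rfl⟩
      refine ⟨fun i => f (s i), fun L hL hne hlen hprod => ?_⟩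
      -- the product in `Gs`
      obtain ⟨M, hM1⟩ : ∃ M : Gs d D.σ μ, M = (L.map fun p => s p.1 * (s p.2)⁻¹).prod :=
        ⟨_, rfl⟩
      have hM : f M = 1 := by
        rw [← hprod, hM1, map_list_prod, List.map_map]
        refine congrArg List.prod (List.map_congr_left fun p _ => ?_)
        rw [Function.comp_apply, map_mul, map_inv]
      obtain ⟨N, hN⟩ := hf M hM
      have hMv : (M : GL (Fin (d + 1)) (PowerSeries K)) =
          (L.map fun p => g p.1 * (g p.2)⁻¹).prod := by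
        have h1 : (M : GL (Fin (d + 1)) (PowerSeries K)) = (Gs d D.σ μ).subtype M := rfl
        rw [h1, hM1, map_list_prod, List.map_map]
        refine congrArg List.prod (List.map_congr_left fun p _ => ?_)
        rw [Function.comp_apply, map_mul, map_inv, hs, hs]
        group
      -- clearing denominators
      have key : ∀ L : List (ι × ι), AB_cs K ((L.map fun p => (D.T p.2).det).prod) •
          (((L.map fun p => g p.1 * (g p.2)⁻¹).prod : GL (Fin (d + 1)) (PowerSeries K)) :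
            Matrix (Fin (d + 1)) (Fin (d + 1)) (PowerSeries K)) =
          (L.map fun p => D.T p.1 * (D.T p.2).adjugate).prod.map (AB_cs K) := by
        intro L
        induction L with
        | nil =>
          simp only [List.map_nil, List.prod_nil, map_one, Units.val_one, one_smul]
          rw [Matrix.map_one _ (map_zero _) (map_one _)]
        | cons p L ih =>
          simp only [List.map_cons, List.prod_cons, map_mul, Units.val_mul]
          rw [Matrix.map_mul, ← ih]
          have h1 : AB_cs K (D.T p.2).det •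
              (((g p.2)⁻¹ : GL (Fin (d + 1)) (PowerSeries K)) :
                Matrix (Fin (d + 1)) (Fin (d + 1)) (PowerSeries K)) =
              (D.T p.2).adjugate.map (AB_cs K) := by
            have h2 := AB_adj (g p.2)
            rw [hg] at h2
            have h3 : ((D.T p.2).map (AB_cs K)).det = AB_cs K (D.T p.2).det := by
              rw [RingHom.map_det, RingHom.mapMatrix_apply]
            have h4 : ((D.T p.2).map (AB_cs K)).adjugate = (D.T p.2).adjugate.map (AB_cs K) := by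
              have := RingHom.map_adjugate (AB_cs K) (D.T p.2)
              simpa only [RingHom.mapMatrix_apply] using this.symm
            rw [← h4, ← h2, h3]
          rw [Matrix.map_mul, ← h1, hg]
          simp only [Matrix.smul_mul, Matrix.mul_smul, smul_smul]
          rw [mul_comm]
      have hkey := key L
      rw [← hMv] at hkey
      obtain ⟨p, hp0, hp1, hκ, hp2, hΛ⟩ := pex D L hL hne
      have hXd : (X : K[X]) ^ m ∣ ((L.map fun p => (D.T p.2).det).prod •
        (1 : Matrix (Fin (d + 1)) (Fin (d + 1)) K[X]) -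
        (L.map fun p => D.T p.1 * (D.T p.2).adjugate).prod).det := by
        apply AB_dvd
        rw [RingHom.map_det, RingHom.mapMatrix_apply]
        have h5 : (((L.map fun p => (D.T p.2).det).prod •
            (1 : Matrix (Fin (d + 1)) (Fin (d + 1)) K[X]) -
            (L.map fun p => D.T p.1 * (D.T p.2).adjugate).prod).map (AB_cs K)) =
            (-(AB_cs K ((L.map fun p => (D.T p.2).det).prod) • N)) *
              (Pm d (PowerSeries.X : PowerSeries K)) ^ m := by
          rw [Matrix.neg_mul, Matrix.smul_mul, ← hN, smul_sub, hkey]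
          ext i j
          simp only [Matrix.map_apply, Matrix.sub_apply, Matrix.neg_apply, Matrix.smul_apply,
            smul_eq_mul, map_sub, map_mul]
          by_cases hij : i = j
          · subst hij; simp
          · simp [Matrix.one_apply_ne hij]
        rw [h5, Matrix.det_mul, Matrix.det_pow, pm_det, mul_pow]
        exact Dvd.dvd.mul_left (Dvd.intro_left _ rfl) _
      have hXp : (X : K[X]) ^ m ∣ p := by
        rw [← hp1] at hXd
        have hco : IsCoprime (X : K[X]) (1 - C D.ε * X) := ⟨C D.ε, 1, by ring⟩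
        have hcQ0 : (L.map fun p => D.c p.2).prod ≠ 0 := by
          apply List.prod_ne_zero
          simp only [List.mem_map, not_exists, not_and]
          intro p _ h0
          exact D.hc _ h0
        have hco2 : IsCoprime (X : K[X]) (L.map fun p => (D.T p.2).det).prod := by
          rw [hΛ]
          refine IsCoprime.mul_right ?_ hco.pow_right
          exact (isCoprime_one_right (x := (X : K[X]))).of_isCoprime_of_dvd_right
            (isUnit_iff_dvd_one.mp (isUnit_C.mpr hcQ0.isUnit))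
        exact (IsCoprime.pow hco2).dvd_of_dvd_mul_left hXd
      exact absurd (hyp L hL hne p hp0 hXp hκ hp2) (by omega)
  obtain ⟨V, hV, Γ, hdec, hreg, hgi, hcol, hVc⟩ := graphC t R hR ht
  refine ⟨V, hV, ?_, Γ, hdec, hreg, ?_, hcol, ?_⟩
  · rw [← Fintype.card_pos_iff, hVc]
    have : 0 < Nat.card G := Nat.card_pos
    omega
  · exact hgi
  · rw [hVc]; exact Nat.mul_le_mul_left _ hcard


/-- `δ`-regular graphs, `δ ≤ q + 1`. -/
theorem core3o (q : ℕ) (hq : IsPrimePow q) (ho : Odd q) (δ : ℕ) (hδ : δ ≤ q + 1) (m : ℕ) (hm : 1 ≤ m) :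
    ∃ (V : Type) (_ : Fintype V) (_ : Nonempty V) (Γ : SimpleGraph V) (_ : DecidableRel Γ.Adj),
      Γ.IsRegularOfDegree δ ∧ ((4 * m + 2 : ℕ) : ℕ∞) ≤ Γ.egirth ∧ Γ.Colorable 2 ∧
      Fintype.card V ≤ 2 * ((q ^ 2 + q + 1) * q ^ (3 * (m - 1) - (m - 1) / 3)) := by
  have hq1 : 1 < q := hq.one_lt
  obtain ⟨p, f, hp, hf, hpq⟩ := (isPrimePow_nat_iff _).1 hq
  have : Fact p.Prime := ⟨hp⟩
  have hK : Nat.card (GaloisField p (3 * f)) = q ^ 3 := by
    rw [GaloisField.card p (3 * f) (by omega), ← hpq]; ring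
  have : Finite (GaloisField p (3 * f)) := Nat.finite_of_card_ne_zero (by rw [hK]; positivity)
  obtain ⟨σ, hσ⟩ : ∃ σ : GaloisField p (3 * f) →+* GaloisField p (3 * f), ∀ a, σ a = a ^ q :=
    ⟨iterateFrobenius (GaloisField p (3 * f)) p f, fun a => by
      rw [iterateFrobenius_def, hpq]⟩
  have hσ3 : ∀ a, σ (σ (σ a)) = a := by
    intro a
    have h := E1_iter σ q hσ 3 a
    rw [← hK, E1_pow_card] at h
    simpa using h
  obtain ⟨ξ, h0, hiso, hind⟩ := count3 q hq1 hK σ hσ
  obtain ⟨D, hDσ, hDc, hDψ⟩ := datum3' σ hσ3 (fun i : Fin δ => ξ (Fin.castLE hδ i)) (fun i => h0 _)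
    (fun i => hiso _) (fun i j hij => hind _ _ (fun h => hij (Fin.castLE_injective hδ h)))
  have h2K : (2 : GaloisField p (3 * f)) ≠ 0 := by
    intro h2
    have h3 : ((2 : ℕ) : GaloisField p (3 * f)) = 0 := by exact_mod_cast h2
    rw [CharP.cast_eq_zero_iff (GaloisField p (3 * f)) p] at h3
    have h4 : p = 2 := (Nat.prime_dvd_prime_iff_eq hp Nat.prime_two).1 h3
    rw [← hpq, h4] at ho
    exact absurd ((even_two).pow_of_ne_zero (by omega)) (Nat.not_even_iff_odd.2 ho)
  obtain ⟨V, i1, i2, Γ, i3, h1, h2, h3, h4⟩ := graphD2 D ⊥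
    (fun i j => ⟨1, one_mem _, by simp [hDc]⟩) m (2 * m + 1) (by omega) (by
      intro L hL hne P hP0 hP1 hκ hP2
      obtain ⟨r1, r2⟩ := rec D.ψ P hP0 _ hκ L.length m 0 hP2 hP1 (by simp)
      by_contra hcon
      obtain ⟨c, hc0, -, hc2⟩ := r2 (by omega)
      apply hc0
      have hl : L.length = 2 * m := by omega
      have e1 : (L.map fun p => D.c p.2).prod = 1 := by simp [hDc]
      have e2 : (L.map fun p => D.c p.1).prod = 1 := by simp [hDc]
      have e3 : (-D.ε) ^ (2 * m) = 1 := by rw [pow_mul, neg_sq, sq, D.hε, one_pow]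
      rw [hl, e1, e2, e3, hDψ] at hc2
      simp only [RingHom.id_apply, map_one, one_mul, div_one] at hc2
      have : (2 : GaloisField p (3 * f)) * c = 0 := by linear_combination hc2
      exact (mul_eq_zero.1 this).resolve_left h2K)
  refine ⟨V, i1, i2, Γ, i3, ?_, ?_, h3, h4.trans (Nat.mul_le_mul_left 2 ?_)⟩
  · simpa using h1
  · rw [show 4 * m + 2 = 2 * (2 * m + 1) by ring]; exact h2
  · rw [hDσ]
    exact bnd3 q hq1 hK σ hσ m hm


end Pool.Agent.H2.EV
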